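import Pool.Agent.Lib.MP_2148a5_lc.LZ.Spec

/-!
# MP_2148a5_lc, part LZ, module COD: localization in a product of finite sets is reducible to `Σ_{I,ε}`
-/

set_option autoImplicit false

namespace Pool.Agent.Lib.MP2148a5

open Set Filter Topology MeasureTheory Cardinal

namespace CODM

/-- the coding of all pairs `(k, v)`, `v : {0, ..., b k} → {0, ..., k}` -/
theorem coding (b : ℕ → ℕ) : ∃ (K : ℕ → ℕ) (u : ℕ → ℕ → ℕ), Tendsto K atTop atTop ∧
    (∀ j y, u j y ≤ K j) ∧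
    ∀ (k : ℕ) (v : ℕ → ℕ), (∀ y, v y ≤ k) → ∃ j, K j = k ∧ ∀ y ≤ b k, u j y = v y := by
  classical
  let T : Type := Σ k : ℕ, (Fin (b k + 1) → Fin (k + 1))
  have hinf : Infinite T := by
    apply Infinite.of_injective (fun k : ℕ => (⟨k, fun _ => 0⟩ : T))
    intro x y hxy
    exact congrArg Sigma.fst hxy
  obtain ⟨e⟩ : Nonempty (ℕ ≃ T) := nonempty_equiv_of_countable
  refine ⟨fun j => (e j).1, fun j y => ((e j).2 ⟨min y (b (e j).1), by omega⟩ : ℕ), ?_, ?_, ?_⟩
  · rw [tendsto_atTop]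
    intro k0
    rw [← Nat.cofinite_eq_atTop]
    have hfin : {j : ℕ | ¬ k0 ≤ (e j).1}.Finite := by
      have h1 : {j : ℕ | ¬ k0 ≤ (e j).1} ⊆
          e ⁻¹' (((Finset.range k0).sigma (fun k => (Finset.univ :
            Finset (Fin (b k + 1) → Fin (k + 1))))) : Finset T) := by
        intro j hj
        have hj' : ¬ k0 ≤ (e j).1 := hj
        rw [mem_preimage, Finset.mem_coe, Finset.mem_sigma]
        exact ⟨Finset.mem_range.2 (by omega), Finset.mem_univ _⟩
      exact Set.Finite.subset ((Finset.finite_toSet _).preimage e.injective.injOn) h1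
    exact hfin
  · intro j y
    exact Nat.le_of_lt_succ (Fin.is_lt _)
  · intro k v hv
    refine ⟨e.symm ⟨k, fun y => ⟨v y, Nat.lt_succ_of_le (hv y)⟩⟩, ?_, ?_⟩
    · simp only [Equiv.apply_symm_apply]
    · intro y hy
      have h1 : ∀ (t : T) (ht : t = ⟨k, fun y => ⟨v y, Nat.lt_succ_of_le (hv y)⟩⟩),
          ((t.2 ⟨min y (b t.1), by omega⟩ : Fin (t.1 + 1)) : ℕ) = v y := by
        intro t ht
        subst ht
        show v (min y (b k)) = v y
        rw [min_eq_left hy]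
      exact h1 _ (Equiv.apply_symm_apply _ _)

/-- a partition into `k + 1` classes of `a` elements (and a rest) -/
theorem exists_idx (W : Type) [Fintype W] (a k : ℕ) (ha : 0 < a)
    (h : (k + 1) * a ≤ Fintype.card W) : ∃ idx : W → ℕ,
    (∀ i, {w | idx w = i}.ncard ≤ a) ∧ (k + 1) * a ≤ {w | idx w ≤ k}.ncard := by
  classical
  let E : W ≃ Fin (Fintype.card W) := Fintype.equivFin W
  refine ⟨fun w => (E w : ℕ) / a, ?_, ?_⟩
  · intro i
    have h1 : {w : W | (E w : ℕ) / a = i}.ncard ≤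
        ((Finset.Ico (i * a) (i * a + a) : Finset ℕ) : Set ℕ).ncard := by
      apply Set.ncard_le_ncard_of_injOn (fun w => (E w : ℕ))
      · intro w hw
        have hw' : (E w : ℕ) / a = i := hw
        rw [Finset.mem_coe, Finset.mem_Ico]
        rw [Nat.div_eq_iff ha] at hw'
        have h3 := hw'.1
        have h4 := hw'.2
        constructor
        · omega
        · omega
      · intro x _ y _ hxy
        exact E.injective (Fin.ext hxy)
    rw [Set.ncard_coe_finset, Nat.card_Ico] at h1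
    show {w : W | (E w : ℕ) / a = i}.ncard ≤ a
    omega
  · have hW : 0 < Fintype.card W := lt_of_lt_of_le (by positivity) h
    have h1 : ((Finset.range ((k + 1) * a) : Finset ℕ) : Set ℕ).ncard ≤
        {w : W | (E w : ℕ) / a ≤ k}.ncard := by
      apply Set.ncard_le_ncard_of_injOn
        (fun x : ℕ => E.symm ⟨x % Fintype.card W, Nat.mod_lt _ hW⟩)
      · intro x hx
        rw [Finset.mem_coe, Finset.mem_range] at hx
        have h2 : x % Fintype.card W = x := Nat.mod_eq_of_lt (lt_of_lt_of_le hx h)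
        show ((E (E.symm ⟨x % Fintype.card W, Nat.mod_lt _ hW⟩) : Fin _) : ℕ) / a ≤ k
        rw [Equiv.apply_symm_apply]
        show (x % Fintype.card W) / a ≤ k
        rw [h2]
        exact Nat.le_of_lt_succ ((Nat.div_lt_iff_lt_mul ha).2 hx)
      · intro x hx y hy hxy
        rw [Finset.mem_coe, Finset.mem_range] at hx hy
        have h2 : x % Fintype.card W = x := Nat.mod_eq_of_lt (lt_of_lt_of_le hx h)
        have h3 : y % Fintype.card W = y := Nat.mod_eq_of_lt (lt_of_lt_of_le hy h)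
        have h4 := E.symm.injective hxy
        have h5 := congrArg Fin.val h4
        simp only at h5
        rw [h2, h3] at h5
        exact h5
    rw [Set.ncard_coe_finset, Finset.card_range] at h1
    exact h1

/-- the size of the classes -/
theorem sizes (h P e : ℝ) (κ : ℕ) (hh : h = P * e) (hP : 0 < P) (he : e ≤ 1 / 4)
    (h1 : ((κ : ℝ) + 1) ^ 2 ≤ h) :
    h < ((κ : ℝ) + 1) * ((⌊h / (κ + 1)⌋₊ + 1 : ℕ) : ℝ) ∧
    ((κ : ℝ) + 1) * ((⌊h / (κ + 1)⌋₊ + 1 : ℕ) : ℝ) ≤ P ∧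
    ((⌊h / (κ + 1)⌋₊ + 1 : ℕ) : ℝ) / h ≤ 2 / ((κ : ℝ) + 1) := by
  have hκ : (0 : ℝ) < (κ : ℝ) + 1 := by positivity
  have hκ1 : (1 : ℝ) ≤ (κ : ℝ) + 1 := by
    have : (0 : ℝ) ≤ κ := Nat.cast_nonneg κ
    linarith
  have hsq : (κ : ℝ) + 1 ≤ ((κ : ℝ) + 1) ^ 2 := by nlinarith
  have hpos : 0 < h := by nlinarith
  have h2 : ((⌊h / (κ + 1)⌋₊ : ℕ) : ℝ) ≤ h / (κ + 1) := Nat.floor_le (by positivity)
  have h3 : h / (κ + 1) < ((⌊h / (κ + 1)⌋₊ : ℕ) : ℝ) + 1 := Nat.lt_floor_add_one _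
  have h4 : ((κ : ℝ) + 1) * (h / (κ + 1)) = h := mul_div_cancel₀ h hκ.ne'
  have hPh : h ≤ P / 4 := by
    rw [hh]; nlinarith
  refine ⟨?_, ?_, ?_⟩
  · push_cast
    nlinarith [mul_lt_mul_of_pos_left h3 hκ]
  · push_cast
    nlinarith [mul_le_mul_of_nonneg_left h2 hκ.le]
  · push_cast
    rw [div_le_div_iff₀ hpos hκ]
    nlinarith [mul_le_mul_of_nonneg_left h2 hκ.le]

/-- for large `k` the coordinates used for `k` are large -/
theorem late (K ν : ℕ → ℕ) (hν : StrictMono ν) (N : ℕ) :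
    ∀ᶠ k in atTop, ∀ j, K j = k → N ≤ ν j := by
  have h1 : ∀ᶠ k in atTop, ∀ j ∈ Finset.range N, K j < k := by
    rw [Filter.eventually_all_finset]
    intro j _
    exact eventually_gt_atTop _
  filter_upwards [h1] with k hk j hj
  by_contra hcon
  have h2 : j ≤ ν j := hν.le_apply
  have h3 := hk j (Finset.mem_range.2 (by omega))
  omega

end CODM

open CODM in
theorem specCOD : SpecCOD := by
  classical
  intro I ε _ hε hsum hUnb b
  obtain ⟨K, u, hK, hu, hcode⟩ := coding b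
  obtain ⟨h, hh⟩ : ∃ h : ℕ → ℝ, ∀ n, h n = 2 ^ (I n).card * ε n := ⟨_, fun n => rfl⟩
  have hhpos : ∀ n, 0 < h n := by
    intro n
    rw [hh]
    have := hε n
    positivity
  have hε0 : ∀ᶠ n in atTop, ε n ≤ 1 / 4 :=
    (hsum.tendsto_atTop_zero.eventually (gt_mem_nhds (by norm_num : (0 : ℝ) < 1 / 4))).mono
      fun n hn => hn.le
  obtain ⟨ν, hν, hνP⟩ := extraction_forall_of_frequently
    (P := fun j n => ((K j : ℝ) + 1) ^ 2 ≤ h n ∧ ε n ≤ 1 / 4) (fun j => by
      have h1 := hUnb (((K j : ℝ) + 1) ^ 2)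
      refine (h1.and_eventually hε0).mono ?_
      rintro n ⟨h2, h3⟩
      exact ⟨by rw [hh]; exact h2, h3⟩)
  obtain ⟨a, ha⟩ : ∃ a : ℕ → ℕ → ℕ, ∀ j n, a j n = ⌊h n / ((K j : ℝ) + 1)⌋₊ + 1 :=
    ⟨_, fun j n => rfl⟩
  have hidx : ∀ j n, ∃ idx : ((I n) → Bool) → ℕ, (((K j : ℝ) + 1) ^ 2 ≤ h n ∧ ε n ≤ 1 / 4) →
      (∀ i, {w | idx w = i}.ncard ≤ a j n) ∧ (K j + 1) * a j n ≤ {w | idx w ≤ K j}.ncard := by
    intro j n
    by_cases hc : ((K j : ℝ) + 1) ^ 2 ≤ h n ∧ ε n ≤ 1 / 4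
    · have h1 := (sizes (h n) (2 ^ (I n).card) (ε n) (K j) (hh n) (by positivity) hc.2 hc.1).2.1
      rw [← ha j n] at h1
      have hcard : Fintype.card ((I n) → Bool) = 2 ^ (I n).card := by
        simp
      have h2 : (K j + 1) * a j n ≤ Fintype.card ((I n) → Bool) := by
        rw [hcard]
        exact_mod_cast h1
      obtain ⟨idx, h3, h4⟩ := exists_idx ((I n) → Bool) (a j n) (K j)
        (by rw [ha]; positivity) h2
      exact ⟨idx, fun _ => ⟨h3, h4⟩⟩
    · exact ⟨fun _ => 0, fun hc' => absurd hc' hc⟩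
  choose idx hidx using hidx
  obtain ⟨Φ, hΦ⟩ : ∃ Φ : (ℕ → ℕ) → ∀ n, Set ((I n) → Bool), ∀ f n w, w ∈ Φ f n ↔
      ∃ j, ν j = n ∧ idx j n w = u j (min (f (K j)) (b (K j))) :=
    ⟨fun f n => {w | ∃ j, ν j = n ∧ idx j n w = u j (min (f (K j)) (b (K j)))},
      fun f n w => Iff.rfl⟩
  obtain ⟨Y, hY⟩ : ∃ Y : (∀ n, Set ((I n) → Bool)) → ℕ → Finset ℕ, ∀ ψ k y, y ∈ Y ψ k ↔
      y ≤ b k ∧ ∀ j, K j = k → ∀ w, idx j (ν j) w = u j y → w ∈ ψ (ν j) :=
    ⟨fun ψ k => (Finset.range (b k + 1)).filter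
      (fun y => ∀ j, K j = k → ∀ w, idx j (ν j) w = u j y → w ∈ ψ (ν j)), fun ψ k y => by
        rw [Finset.mem_filter, Finset.mem_range, Nat.lt_succ_iff]⟩
  refine ⟨Φ, fun ψ k => if (Y ψ k).card ≤ k then Y ψ k else ∅, ?_, ?_, ?_⟩
  · intro f
    unfold Sig
    rw [Metric.tendsto_atTop]
    intro δ hδ
    have h1 : ∀ᶠ j in atTop, 2 / ((K j : ℝ) + 1) < δ := by
      have h2 : ∀ᶠ j in atTop, ⌈2 / δ⌉₊ ≤ K j := hK.eventually_ge_atTop _
      filter_upwards [h2] with j hj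
      have h3 : 2 / δ ≤ K j := (Nat.le_ceil _).trans (by exact_mod_cast hj)
      rw [div_lt_iff₀ (by positivity)]
      rw [div_le_iff₀ hδ] at h3
      nlinarith
    obtain ⟨J, hJ⟩ := eventually_atTop.1 h1
    refine ⟨ν J, fun n hn => ?_⟩
    rw [Real.dist_0_eq_abs, abs_of_nonneg (div_nonneg (Nat.cast_nonneg _) (by
      rw [← hh]; exact (hhpos n).le))]
    by_cases hex : ∃ j, ν j = n
    · obtain ⟨j, rfl⟩ := hex
      have hjJ : J ≤ j := hν.le_iff_le.1 hn
      have h2 : (Φ f (ν j)) ⊆ {w | idx j (ν j) w = u j (min (f (K j)) (b (K j)))} := by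
        intro w hw
        rw [hΦ] at hw
        obtain ⟨j', hj', hw'⟩ := hw
        have : j' = j := hν.injective hj'
        subst this
        exact hw'
      have h3 : (Φ f (ν j)).ncard ≤ a j (ν j) :=
        (Set.ncard_le_ncard h2 (Set.toFinite _)).trans ((hidx j (ν j) (hνP j)).1 _)
      have h4 := (sizes (h (ν j)) (2 ^ (I (ν j)).card) (ε (ν j)) (K j) (hh _) (by positivity)
        (hνP j).2 (hνP j).1).2.2
      rw [← ha j (ν j)] at h4
      rw [← hh]
      have h5 : ((Φ f (ν j)).ncard : ℝ) / h (ν j) ≤ (a j (ν j) : ℝ) / h (ν j) := by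
        apply div_le_div_of_nonneg_right _ (hhpos _).le
        exact_mod_cast h3
      exact lt_of_le_of_lt (h5.trans h4) (hJ j hjJ)
    · have h2 : Φ f n = ∅ := by
        rw [Set.eq_empty_iff_forall_notMem]
        intro w hw
        rw [hΦ] at hw
        obtain ⟨j, hj, -⟩ := hw
        exact hex ⟨j, hj⟩
      rw [h2, Set.ncard_empty]
      simpa using hδ
  · intro ψ k
    show (if (Y ψ k).card ≤ k then Y ψ k else ∅).card ≤ k
    split_ifs with hc
    · exact hc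
    · simp
  · intro f ψ hfb hψ hInc
    -- the set `Y` is small
    have hbd : ∀ᶠ n in atTop, ((ψ n).ncard : ℝ) ≤ h n := by
      have h1 := hψ.eventually (gt_mem_nhds (zero_lt_one : (0 : ℝ) < 1))
      filter_upwards [h1] with n hn
      rw [← hh, div_lt_one (hhpos n)] at hn
      exact hn.le
    obtain ⟨N, hN⟩ := eventually_atTop.1 hbd
    obtain ⟨N', hN'⟩ := eventually_atTop.1 hInc
    show ∀ᶠ k in atTop, f k ∈ (if (Y ψ k).card ≤ k then Y ψ k else ∅)
    filter_upwards [hfb, late K ν hν N, late K ν hν N'] with k hfk hkN hkN'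
    have hcard : (Y ψ k).card ≤ k := by
      by_contra hcon
      obtain ⟨Y', hY', hY'c⟩ := Finset.exists_subset_card_eq
        (show k + 1 ≤ (Y ψ k).card by omega)
      let e : Y' ≃ Fin (k + 1) := Finset.equivFinOfCardEq hY'c
      obtain ⟨v, hv⟩ : ∃ v : ℕ → ℕ, ∀ y, v y = if hy : y ∈ Y' then ((e ⟨y, hy⟩ : Fin _) : ℕ)
          else 0 := ⟨_, fun y => rfl⟩
      have hvk : ∀ y, v y ≤ k := by
        intro y
        rw [hv]
        split_ifs with hy
        · exact Nat.le_of_lt_succ (Fin.is_lt _)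
        · exact Nat.zero_le _
      obtain ⟨j, hj, hju⟩ := hcode k v hvk
      have hsub : {w | idx j (ν j) w ≤ K j} ⊆ ψ (ν j) := by
        intro w hw
        have hw' : idx j (ν j) w ≤ k := by
          have : idx j (ν j) w ≤ K j := hw
          omega
        obtain ⟨y, hy⟩ : ∃ y : Y', e y = ⟨idx j (ν j) w, Nat.lt_succ_of_le hw'⟩ :=
          e.surjective _
        have hyv : v y = idx j (ν j) w := by
          rw [hv, dif_pos y.2]
          show ((e y : Fin _) : ℕ) = _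
          rw [hy]
        have hyY := (hY ψ k y).1 (hY' y.2)
        exact hyY.2 j hj w (by rw [hju _ hyY.1, hyv])
      have h1 : (K j + 1) * a j (ν j) ≤ (ψ (ν j)).ncard :=
        (hidx j (ν j) (hνP j)).2.trans (Set.ncard_le_ncard hsub (Set.toFinite _))
      have h2 := (sizes (h (ν j)) (2 ^ (I (ν j)).card) (ε (ν j)) (K j) (hh _) (by positivity)
        (hνP j).2 (hνP j).1).1
      rw [← ha j (ν j)] at h2
      have h3 := hN (ν j) (hkN j hj)
      have h4 : ((K j : ℝ) + 1) * (a j (ν j) : ℝ) ≤ ((ψ (ν j)).ncard : ℝ) := by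
        exact_mod_cast h1
      linarith
    rw [if_pos hcard, hY]
    refine ⟨hfk, fun j hj w hw => ?_⟩
    apply hN' (ν j) (hkN' j hj)
    rw [hΦ]
    refine ⟨j, rfl, ?_⟩
    rw [hj, min_eq_left hfk]
    exact hw

end Pool.Agent.Lib.MP2148a5
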