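import Pool.Agent.Lib.MP_2148a5_lc.LZ.Spec

/-!
# MP_2148a5_lc, LZ: module CPT (a compact set of positive portions outside a null set)
-/

set_option autoImplicit false

namespace Pool.Agent.Lib.MP2148a5

open Set Filter Topology MeasureTheory

namespace CPTM

instance : IsProbabilityMeasure coinMeas := by
  unfold coinMeas
  infer_instance

/-- a compact set of positive measure outside a null set -/
theorem exists_compact (A : Set Cantor) (hA : coinMeas A = 0) :
    ∃ K : Set Cantor, IsCompact K ∧ Disjoint K A ∧ 0 < coinMeas K := by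
  have hm : MeasurableSet (toMeasurable coinMeas A)ᶜ := (measurableSet_toMeasurable _ _).compl
  have h1 : coinMeas (toMeasurable coinMeas A)ᶜ = 1 := by
    rw [prob_compl_eq_one_iff (measurableSet_toMeasurable _ _), measure_toMeasurable, hA]
  have h0 : (0 : ENNReal) < coinMeas (toMeasurable coinMeas A)ᶜ := by
    rw [h1]
    exact zero_lt_one
  obtain ⟨K, hK, hKc, hK0⟩ := hm.exists_lt_isCompact_of_ne_top (measure_ne_top _ _) h0
  refine ⟨K, hKc, ?_, hK0⟩
  rw [Set.disjoint_left]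
  intro x hx hxA
  exact hK hx (subset_toMeasurable _ _ hxA)

end CPTM

theorem specCPT : SpecCPT := by
  intro A hA
  obtain ⟨K₀, hc, hd, hpos⟩ := CPTM.exists_compact A hA
  set F : Set (Set Cantor) :=
    {O | O ∈ TopologicalSpace.countableBasis Cantor ∧ coinMeas (K₀ ∩ O) = 0} with hF
  have hFc : F.Countable :=
    (TopologicalSpace.countable_countableBasis Cantor).mono fun O hO => hO.1
  have hopen : IsOpen (⋃₀ F) :=
    isOpen_sUnion fun O hO => TopologicalSpace.isOpen_of_mem_countableBasis hO.1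
  have hnull : coinMeas (K₀ ∩ ⋃₀ F) = 0 := by
    rw [Set.sUnion_eq_biUnion, Set.inter_iUnion₂]
    exact (measure_biUnion_null_iff hFc).2 fun O hO => hO.2
  have hKpos : 0 < coinMeas (K₀ \ ⋃₀ F) := by
    by_contra hcon
    have h0 : coinMeas (K₀ \ ⋃₀ F) = 0 := le_antisymm (not_lt.1 hcon) zero_le
    have h1 : coinMeas K₀ ≤ coinMeas (K₀ ∩ ⋃₀ F) + coinMeas (K₀ \ ⋃₀ F) :=
      measure_le_inter_add_sdiff _ _ _
    rw [hnull, h0, add_zero] at h1
    exact absurd hpos (not_lt.2 h1)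
  refine ⟨K₀ \ ⋃₀ F, hc.diff hopen, nonempty_of_measure_ne_zero hKpos.ne',
    hd.mono_left Set.sdiff_subset, ?_⟩
  rintro O hO ⟨x, hxK, hxO⟩ h0
  obtain ⟨O', hO', hxO', hsub⟩ :=
    (TopologicalSpace.isBasis_countableBasis Cantor).exists_subset_of_mem_open hxO hO
  refine hxK.2 ⟨O', ⟨hO', ?_⟩, hxO'⟩
  refine measure_mono_null (t := (K₀ ∩ ⋃₀ F) ∪ ((K₀ \ ⋃₀ F) ∩ O)) ?_ (measure_union_null hnull h0)
  rintro y ⟨hy, hyO⟩
  by_cases hyF : y ∈ ⋃₀ F
  · exact Or.inl ⟨hy, hyF⟩
  · exact Or.inr ⟨⟨hy, hyF⟩, hsub hyO⟩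

end Pool.Agent.Lib.MP2148a5
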