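import Pool.Agent.Lib.MP_2148a5_lc.LZ.Spec

/-!
# Module ECM: the ideal `E_{I,ε}` is contained in the null and in the meager ideal
-/

set_option autoImplicit false

namespace Pool.Agent.Lib.MP2148a5

open Set Filter Topology MeasureTheory Cardinal

namespace ECMM

lemma alm_sub_inf (I : ℕ → Finset ℕ) (φ : ∀ n, Set ((I n) → Bool)) :
    almSet I φ ⊆ infSet I φ := by
  intro x hx
  exact Filter.Eventually.frequently hx

lemma compl_alm (I : ℕ → Finset ℕ) (φ : ∀ n, Set ((I n) → Bool)) :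
    (almSet I φ)ᶜ = infSet I (fun n => (φ n)ᶜ) := by
  ext x
  simp only [almSet, infSet, Set.mem_compl_iff, Set.mem_setOf_eq, Filter.not_eventually]

lemma compl_ne {I : ℕ → Finset ℕ} {ε : ℕ → ℝ} (hε : ∀ n, 0 < ε n) (hs : Summable ε)
    {φ : ∀ n, Set ((I n) → Bool)} (hφ : Sig I ε φ) : ∀ᶠ n in atTop, ((φ n)ᶜ).Nonempty := by
  have h1 : ∀ᶠ n in atTop, ((φ n).ncard : ℝ) / (2 ^ (I n).card * ε n) < 1 :=
    hφ.eventually_lt_const one_pos
  have h2 : ∀ᶠ n in atTop, ε n < 1 := hs.tendsto_atTop_zero.eventually_lt_const one_pos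
  filter_upwards [h1, h2] with n h3 h4
  by_contra hne
  rw [Set.not_nonempty_iff_eq_empty, Set.compl_empty_iff] at hne
  have hpos : (0 : ℝ) < 2 ^ (I n).card * ε n := by
    have := hε n
    positivity
  rw [div_lt_one hpos, hne, Set.ncard_univ] at h3
  have h5 : (Nat.card ((I n) → Bool) : ℝ) = 2 ^ (I n).card := by
    rw [Nat.card_eq_fintype_card, Fintype.card_fun, Fintype.card_bool, Fintype.card_coe]
    push_cast
    rfl
  rw [h5] at h3
  have h6 : (2 : ℝ) ^ (I n).card * ε n < 2 ^ (I n).card * 1 :=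
    mul_lt_mul_of_pos_left h4 (by positivity)
  linarith

end ECMM

open ECMM in
theorem specECM (hNUL : SpecNUL) (hRES : SpecRES) : SpecECM := by
  intro I ε hI hε hsum hsing
  have hN : EI I ε ⊆ NN := by
    rintro A ⟨φ, hφ, hA⟩
    exact measure_mono_null (hA.trans (alm_sub_inf I φ)) (hNUL I ε hI hε hsum φ hφ)
  have hM : EI I ε ⊆ MM := by
    rintro A ⟨φ, hφ, hA⟩
    have h1 : IsMeagre (almSet I φ) := by
      show (almSet I φ)ᶜ ∈ residual Cantor
      rw [compl_alm]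
      exact hRES I hI _ (compl_ne hε hsum hφ).frequently
    exact h1.mono hA
  have hcov : {κ | ∃ F : Set (Set Cantor), F ⊆ EI I ε ∧ #F = κ ∧ ⋃₀ F = Set.univ}.Nonempty := by
    refine ⟨_, Set.range (fun x : Cantor => ({x} : Set Cantor)), ?_, rfl, ?_⟩
    · rintro _ ⟨x, rfl⟩
      exact hsing x
    · refine Set.eq_univ_of_forall fun x => ?_
      exact Set.mem_sUnion.mpr ⟨{x}, ⟨x, rfl⟩, rfl⟩
  obtain ⟨F, hF0, hF1, hF2⟩ := csInf_mem hcov
  have hu : (Set.univ : Set Cantor) ∉ NN := by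
    intro h
    have hp : IsProbabilityMeasure coinMeas := by
      unfold coinMeas
      infer_instance
    have h1 : coinMeas Set.univ = 0 := h
    rw [measure_univ] at h1
    exact one_ne_zero h1
  have hm : (Set.univ : Set Cantor) ∉ MM := by
    intro h
    have h1 : (Set.univ : Set Cantor)ᶜ ∈ residual Cantor := h
    rw [Set.compl_univ] at h1
    have h2 := (dense_of_mem_residual h1).nonempty
    exact Set.not_nonempty_empty h2
  have hnn : {κ | ∃ A : Set Cantor, A ∉ NN ∧ #A = κ}.Nonempty := ⟨_, Set.univ, hu, rfl⟩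
  have hmm : {κ | ∃ A : Set Cantor, A ∉ MM ∧ #A = κ}.Nonempty := ⟨_, Set.univ, hm, rfl⟩
  obtain ⟨A, hA0, hA1⟩ := csInf_mem hnn
  obtain ⟨B, hB0, hB1⟩ := csInf_mem hmm
  refine ⟨?_, ?_, ?_, ?_⟩
  · exact (csInf_le' ⟨F, hF0.trans hN, rfl, hF2⟩ : covC NN ≤ #F).trans_eq hF1
  · exact (csInf_le' ⟨F, hF0.trans hM, rfl, hF2⟩ : covC MM ≤ #F).trans_eq hF1
  · exact (csInf_le' ⟨A, fun h => hA0 (hN h), rfl⟩ : nonC (EI I ε) ≤ #A).trans_eq hA1
  · exact (csInf_le' ⟨B, fun h => hB0 (hM h), rfl⟩ : nonC (EI I ε) ≤ #B).trans_eq hB1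

end Pool.Agent.Lib.MP2148a5
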