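import Pool.Agent.Lib.MP_2148a5_lc.LZ.Spec

/-!
# MP_2148a5_lc, part LZ: module ESY (the easy half of Bartoszynski's theorem)
-/

set_option autoImplicit false

namespace Pool.Agent.Lib.MP2148a5

open Set Filter Topology MeasureTheory Cardinal

namespace ESYM

open TopologicalSpace

/-- open sets are countable unions of clopen sets -/
theorem open_union (U : Set Cantor) (hU : IsOpen U) :
    ∃ B : ℕ → Clopens Cantor, U = ⋃ i, (B i : Set Cantor) := by
  classical
  have : Countable (Clopens Cantor) := Clopens.countable_iff_secondCountable.mpr inferInstance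
  obtain ⟨e, he⟩ := exists_surjective_nat (Clopens Cantor)
  refine ⟨fun i => if (e i : Set Cantor) ⊆ U then e i else ⊥, ?_⟩
  apply subset_antisymm
  · intro x hx
    obtain ⟨V, hV, hxV, hVU⟩ := compact_exists_isClopen_in_isOpen hU hx
    obtain ⟨i, hi⟩ := he ⟨V, hV⟩
    refine mem_iUnion.mpr ⟨i, ?_⟩
    have h1 : (e i : Set Cantor) ⊆ U := by rw [hi]; exact hVU
    show x ∈ ((if (e i : Set Cantor) ⊆ U then e i else ⊥ : Clopens Cantor) : Set Cantor)
    rw [if_pos h1, hi]
    exact hxV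
  · refine iUnion_subset fun i => ?_
    show ((if (e i : Set Cantor) ⊆ U then e i else ⊥ : Clopens Cantor) : Set Cantor) ⊆ U
    by_cases h1 : (e i : Set Cantor) ⊆ U
    · rw [if_pos h1]; exact h1
    · rw [if_neg h1]; simp

/-- a null set is covered by clopen sets of small total measure -/
theorem cover (A : Set Cantor) (hA : coinMeas A = 0) (δ : ENNReal) (hδ : 0 < δ) :
    ∃ g : ℕ → Clopens Cantor, A ⊆ ⋃ i, (g i : Set Cantor) ∧ ∑' i, coinMeas (g i : Set Cantor) ≤ δ := by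
  have : IsProbabilityMeasure coinMeas := by unfold coinMeas; infer_instance
  obtain ⟨U, hAU, hU, hμ⟩ := A.exists_isOpen_lt_of_lt (μ := coinMeas) δ (by rw [hA]; exact hδ)
  obtain ⟨B, hB⟩ := open_union U hU
  let f : ℕ → Set Cantor := fun i => (B i : Set Cantor)
  have hcl : ∀ i, IsClopen (disjointed f i) := by
    intro i
    refine disjointedRec (p := IsClopen) ?_ ?_ 
    · intro t j ht
      exact ht.diff (B j).isClopen
    · exact (B i).isClopen
  refine ⟨fun i => ⟨disjointed f i, hcl i⟩, ?_, ?_⟩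
  · show A ⊆ ⋃ i, disjointed f i
    rw [iUnion_disjointed]
    exact hAU.trans hB.subset
  · show ∑' i, coinMeas (disjointed f i) ≤ δ
    rw [← measure_iUnion (disjoint_disjointed f) fun i => (hcl i).2.measurableSet, iUnion_disjointed]
    show coinMeas (⋃ i, (B i : Set Cantor)) ≤ δ
    rw [← hB]
    exact hμ.le

/-- the sequence of clopen sets of a null set -/
theorem seq (A : Set Cantor) (hA : coinMeas A = 0) : ∃ D : ℕ → Clopens Cantor,
    (∀ n, coinMeas (D n : Set Cantor) ≤ (4⁻¹ : ENNReal) ^ n) ∧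
      ∀ x ∈ A, ∀ N : ℕ, ∃ n, N ≤ n ∧ x ∈ D n := by
  have hpos : ∀ k : ℕ, (0 : ENNReal) < 2⁻¹ ^ k := fun k =>
    ENNReal.pow_pos (ENNReal.inv_pos.mpr (by norm_num)) k
  choose g hg1 hg2 using fun k : ℕ => cover A hA (2⁻¹ ^ k) (hpos k)
  let E : ℕ → Clopens Cantor := fun j => g (Nat.unpair j).1 (Nat.unpair j).2
  have hE : ∑' j, coinMeas (E j : Set Cantor) ≠ ⊤ := by
    have h1 : ∑' j, coinMeas (E j : Set Cantor) =
        ∑' p : ℕ × ℕ, coinMeas (g p.1 p.2 : Set Cantor) :=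
      Nat.pairEquiv.symm.tsum_eq (fun p : ℕ × ℕ => coinMeas (g p.1 p.2 : Set Cantor))
    rw [h1, ENNReal.tsum_prod (f := fun k i => coinMeas (g k i : Set Cantor))]
    refine ne_top_of_le_ne_top ?_ (ENNReal.tsum_le_tsum hg2)
    rw [ENNReal.tsum_geometric]
    simp
  have hx : ∀ x ∈ A, ∀ N : ℕ, ∃ j, N ≤ j ∧ x ∈ E j := by
    intro x hx N
    obtain ⟨i, hi⟩ := mem_iUnion.mp (hg1 N hx)
    refine ⟨Nat.pair N i, Nat.left_le_pair N i, ?_⟩
    show x ∈ g (Nat.unpair (Nat.pair N i)).1 (Nat.unpair (Nat.pair N i)).2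
    rw [Nat.unpair_pair]
    exact hi
  have htail := ENNReal.tendsto_sum_nat_add (fun j => coinMeas (E j : Set Cantor)) hE
  have hev : ∀ n : ℕ, ∀ᶠ i in atTop,
      ∑' k, coinMeas (E (k + i) : Set Cantor) < (4⁻¹ : ENNReal) ^ n := by
    intro n
    exact htail.eventually (gt_mem_nhds (ENNReal.pow_pos (ENNReal.inv_pos.mpr (by norm_num)) n))
  obtain ⟨t, ht, htn⟩ := extraction_forall_of_eventually hev
  refine ⟨fun n => (Finset.Ico (t n) (t (n + 1))).sup E, ?_, ?_⟩
  · intro n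
    rw [Clopens.coe_finset_sup]
    refine (measure_biUnion_finset_le _ _).trans (le_trans ?_ (htn n).le)
    rw [Finset.sum_Ico_eq_sum_range]
    simp_rw [add_comm (t n)]
    exact ENNReal.sum_le_tsum _
  · intro x hxA N
    obtain ⟨j, hj, hxj⟩ := hx x hxA (t N)
    have hex : ∃ m, j < t m := ⟨j + 1, lt_of_lt_of_le (Nat.lt_succ_self j) (ht.id_le (j + 1))⟩
    classical
    have hm := Nat.find_spec hex
    have hmin : ∀ m, m < Nat.find hex → t m ≤ j := fun m hm => not_lt.mp (Nat.find_min hex hm)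
    have hN : N < Nat.find hex := by
      by_contra hc
      have := ht.monotone (not_lt.mp hc)
      omega
    obtain ⟨n, hn⟩ : ∃ n, Nat.find hex = n + 1 := ⟨Nat.find hex - 1, by omega⟩
    refine ⟨n, by omega, ?_⟩
    show x ∈ ((Finset.Ico (t n) (t (n + 1))).sup E : Clopens Cantor)
    rw [← SetLike.mem_coe, Clopens.coe_finset_sup]
    refine mem_iUnion₂.mpr ⟨j, ?_, hxj⟩
    rw [Finset.mem_Ico]
    exact ⟨hmin n (by omega), by rw [← hn]; exact hm⟩

end ESYM

open ESYM TopologicalSpace in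
theorem specESY : SpecESY := by
  classical
  have : Countable (Clopens Cantor) := Clopens.countable_iff_secondCountable.mpr inferInstance
  obtain ⟨c, hc⟩ := Countable.exists_injective_nat (Clopens Cantor)
  have hD : ∀ A : Set Cantor, ∃ D : ℕ → Clopens Cantor, coinMeas A = 0 →
      (∀ n, coinMeas (D n : Set Cantor) ≤ (4⁻¹ : ENNReal) ^ n) ∧
        ∀ x ∈ A, ∀ N : ℕ, ∃ n, N ≤ n ∧ x ∈ D n := by
    intro A
    by_cases hA : coinMeas A = 0
    · obtain ⟨D, hD⟩ := seq A hA
      exact ⟨D, fun _ => hD⟩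
    · exact ⟨fun _ => ⊥, fun h => absurd h hA⟩
  choose D hD using hD
  refine ⟨fun A n => c (D A n), fun S => {x | ∃ᶠ n in atTop, ∃ E : Clopens Cantor,
    c E ∈ S n ∧ coinMeas (E : Set Cantor) ≤ (4⁻¹ : ENNReal) ^ n ∧ x ∈ E}, ?_, ?_⟩
  · intro S hS
    refine measure_setOfPred_frequently_eq_zero ?_
    have hb : ∀ n, coinMeas {x : Cantor | ∃ E : Clopens Cantor,
        c E ∈ S n ∧ coinMeas (E : Set Cantor) ≤ (4⁻¹ : ENNReal) ^ n ∧ x ∈ E} ≤ (2⁻¹ : ENNReal) ^ n := by
      intro n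
      have h1 : {x : Cantor | ∃ E : Clopens Cantor,
          c E ∈ S n ∧ coinMeas (E : Set Cantor) ≤ (4⁻¹ : ENNReal) ^ n ∧ x ∈ E} ⊆
          ⋃ m ∈ S n, {x : Cantor | ∃ E : Clopens Cantor,
            c E = m ∧ coinMeas (E : Set Cantor) ≤ (4⁻¹ : ENNReal) ^ n ∧ x ∈ E} := by
        rintro x ⟨E, h1, h2, h3⟩
        exact mem_iUnion₂.mpr ⟨c E, h1, E, rfl, h2, h3⟩
      have h2 : ∀ m ∈ S n, coinMeas {x : Cantor | ∃ E : Clopens Cantor,
            c E = m ∧ coinMeas (E : Set Cantor) ≤ (4⁻¹ : ENNReal) ^ n ∧ x ∈ E} ≤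
            (4⁻¹ : ENNReal) ^ n := by
        intro m _
        by_cases hm : ∃ E : Clopens Cantor, c E = m ∧ coinMeas (E : Set Cantor) ≤ (4⁻¹ : ENNReal) ^ n
        · obtain ⟨E, hE, hE'⟩ := hm
          refine le_trans (measure_mono ?_) hE'
          rintro x ⟨E', h3, _, h5⟩
          have : E' = E := hc (h3.trans hE.symm)
          rw [← this]
          exact h5
        · have : {x : Cantor | ∃ E : Clopens Cantor,
            c E = m ∧ coinMeas (E : Set Cantor) ≤ (4⁻¹ : ENNReal) ^ n ∧ x ∈ E} = ∅ := by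
            ext x
            simp only [mem_ofPred_eq, mem_empty_iff_false, iff_false]
            rintro ⟨E, h3, h4, _⟩
            exact hm ⟨E, h3, h4⟩
          rw [this, measure_empty]
          exact zero_le
      calc _ ≤ coinMeas (⋃ m ∈ S n, {x : Cantor | ∃ E : Clopens Cantor,
            c E = m ∧ coinMeas (E : Set Cantor) ≤ (4⁻¹ : ENNReal) ^ n ∧ x ∈ E}) := measure_mono h1
        _ ≤ ∑ m ∈ S n, coinMeas {x : Cantor | ∃ E : Clopens Cantor,
            c E = m ∧ coinMeas (E : Set Cantor) ≤ (4⁻¹ : ENNReal) ^ n ∧ x ∈ E} :=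
            measure_biUnion_finset_le _ _
        _ ≤ ∑ _m ∈ S n, (4⁻¹ : ENNReal) ^ n := Finset.sum_le_sum h2
        _ = (S n).card * (4⁻¹ : ENNReal) ^ n := by rw [Finset.sum_const, nsmul_eq_mul]
        _ ≤ (2 : ENNReal) ^ n * (4⁻¹ : ENNReal) ^ n := by
            gcongr
            have h3 : (S n).card ≤ 2 ^ n := (hS n).trans n.lt_two_pow_self.le
            exact_mod_cast h3
        _ = (2⁻¹ : ENNReal) ^ n := by
            rw [← mul_pow]
            congr 1
            have h4 : (4 : ENNReal) = 2 * 2 := by norm_num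
            rw [h4, ENNReal.mul_inv (by norm_num) (by norm_num), ← mul_assoc,
              ENNReal.mul_inv_cancel (by norm_num) (by norm_num), one_mul]
    refine ne_top_of_le_ne_top ?_ (ENNReal.tsum_le_tsum hb)
    rw [ENNReal.tsum_geometric]
    simp
  · intro A S hA hS hcap x hx
    obtain ⟨h1, h2⟩ := hD A hA
    show ∃ᶠ n in atTop, ∃ E : Clopens Cantor,
      c E ∈ S n ∧ coinMeas (E : Set Cantor) ≤ (4⁻¹ : ENNReal) ^ n ∧ x ∈ E
    have h3 : ∃ᶠ n in atTop, x ∈ D A n := frequently_atTop.mpr fun N => h2 x hx N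
    exact (h3.and_eventually hcap).mono fun n hn => ⟨D A n, hn.2, h1 n, hn.1⟩

end Pool.Agent.Lib.MP2148a5
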