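import Pool.Agent.Lib.MP_2148a5_lc.LZ.Spec

/-!
# MP_2148a5_lc, LZ: module FIN, and the corollaries on the four cardinals
-/

set_option autoImplicit false

namespace Pool.Agent.Lib.MP2148a5

open Set Filter Topology MeasureTheory Cardinal

theorem specFIN (hCAR : SpecCAR) (hNUB : SpecNUB) (hLOC : SpecLOC) (hSGS : SpecSGS)
    (hSGE : SpecSGE) (hECM : SpecECM) (hSIN : SpecSIN) : SpecFIN := by
  intro I ε hI hε hs
  obtain ⟨hN1, hN2⟩ := hNUB
  obtain ⟨hU, hES⟩ := hSIN I ε hε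
  refine ⟨fun hS => ?_, fun hE => ?_⟩
  · obtain ⟨h1, h2⟩ := hLOC I ε hI hε hs (hU hS)
    obtain ⟨h3, h4⟩ := hSGS I ε hI hε hs hS
    obtain ⟨-, h5, h6, -⟩ := hCAR I ε hI hε hs hS
    exact ⟨⟨h3.trans (h1.trans hN1.symm), h4.trans (h2.trans hN2.symm)⟩, h5, h6⟩
  · have hS : ∀ x : Cantor, {x} ∈ SI I ε := fun x => hES (hE x)
    obtain ⟨h1, h2⟩ := hLOC I ε hI hε hs (hU hS)
    obtain ⟨h3, h4⟩ := hSGE I ε hI hε hs hE
    obtain ⟨h5, h6, h7, h8⟩ := hECM I ε hI hε hs hE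
    exact ⟨⟨h3.trans (h1.trans hN1.symm), h4.trans (h2.trans hN2.symm)⟩, ⟨h5, h6⟩, h7, h8⟩

namespace FINM

/-- `add ≤ non` -/
theorem add_le_non {α : Type} (J : Set (Set α)) (h1 : ∀ x : α, {x} ∈ J)
    (h2 : (Set.univ : Set α) ∉ J) : addC J ≤ nonC J := by
  refine le_csInf ⟨_, Set.univ, h2, rfl⟩ ?_
  rintro κ ⟨A, hA, rfl⟩
  have h3 : addC J ≤ #((fun x : α => ({x} : Set α)) '' A) := by
    refine csInf_le' ⟨_, ?_, rfl, ?_⟩
    · rintro _ ⟨x, _, rfl⟩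
      exact h1 x
    · have h4 : ⋃₀ ((fun x : α => ({x} : Set α)) '' A) = A := by
        ext x
        simp
      rw [h4]
      exact hA
  exact h3.trans Cardinal.mk_image_le

/-- `cov ≤ cof` -/
theorem cov_le_cof {α : Type} (J : Set (Set α)) (h1 : ∀ x : α, {x} ∈ J) : covC J ≤ cofC J := by
  refine le_csInf ⟨_, J, Subset.rfl, rfl, fun A hA => ⟨A, hA, Subset.rfl⟩⟩ ?_
  rintro κ ⟨F, hF, hκ, hcof⟩
  refine csInf_le' ⟨F, hF, hκ, Set.eq_univ_of_forall fun x => ?_⟩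
  obtain ⟨B, hB, hxB⟩ := hcof {x} (h1 x)
  exact ⟨B, hB, hxB rfl⟩

/-- the whole space is not in `EI` -/
theorem univ_not_EI (hNUL : SpecNUL) (I : ℕ → Finset ℕ) (ε : ℕ → ℝ) (hI : IsIntPart I)
    (hε : ∀ n, 0 < ε n) (hs : Summable ε) : (Set.univ : Set Cantor) ∉ EI I ε := by
  rintro ⟨φ, hφ, hsub⟩
  have h1 : coinMeas (infSet I φ) = 0 := hNUL I ε hI hε hs φ hφ
  have h2 : (Set.univ : Set Cantor) ⊆ infSet I φ := fun x hx => (hsub hx).frequently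
  have h3 : coinMeas (Set.univ : Set Cantor) = 0 := measure_mono_null h2 h1
  have h4 : IsProbabilityMeasure coinMeas := by
    unfold coinMeas
    infer_instance
  rw [h4.measure_univ] at h3
  exact one_ne_zero h3

end FINM

end Pool.Agent.Lib.MP2148a5
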