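import Pool.Agent.Lib.MP_2148a5_lc.LZ.Spec

/-!
# MP_2148a5_lc, part LZ, module HRD: the hard half of Bartoszynski's theorem
-/

set_option autoImplicit false

namespace Pool.Agent.Lib.MP2148a5

open Set Filter Topology MeasureTheory Cardinal

namespace HRDM

lemma exists_basis : ∃ O : ℕ → Set Cantor, (∀ j, IsOpen (O j)) ∧
    ∀ (x : Cantor) (W : Set Cantor), IsOpen W → x ∈ W → ∃ j, x ∈ O j ∧ O j ⊆ W := by
  obtain ⟨b, hb, _, hB⟩ := TopologicalSpace.exists_countable_basis Cantor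
  have hne : b.Nonempty := by
    obtain ⟨v, hv, _, _⟩ :=
      hB.exists_subset_of_mem_open (Set.mem_univ (fun _ => false : Cantor)) isOpen_univ
    exact ⟨v, hv⟩
  obtain ⟨O, hO⟩ := hb.exists_eq_range hne
  refine ⟨O, fun j => hB.isOpen (by rw [hO]; exact Set.mem_range_self j), ?_⟩
  intro x W hW hx
  obtain ⟨v, hv, hxv, hvW⟩ := hB.exists_subset_of_mem_open hx hW
  rw [hO] at hv
  obtain ⟨j, rfl⟩ := hv
  exact ⟨j, hxv, hvW⟩

lemma baire (O : ℕ → Set Cantor)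
    (hO : ∀ (x : Cantor) (W : Set Cantor), IsOpen W → x ∈ W → ∃ j, x ∈ O j ∧ O j ⊆ W)
    (K : Set Cantor) (hK : IsCompact K) (hne : K.Nonempty) (V : ℕ → Set Cantor)
    (hV : ∀ n, IsOpen (V n)) (hd : ∀ x ∈ K, ¬ ∃ᶠ n in atTop, x ∈ V n) :
    ∃ m j, (K ∩ O j).Nonempty ∧ ∀ n, m ≤ n → K ∩ O j ∩ V n = ∅ := by
  by_contra hcon
  have hcon' : ∀ m j, (K ∩ O j).Nonempty → ∃ n, m ≤ n ∧ (K ∩ O j ∩ V n).Nonempty := by
    intro m j hmj
    by_contra h
    apply hcon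
    refine ⟨m, j, hmj, ?_⟩
    intro n hn
    by_contra h2
    exact h ⟨n, hn, Set.nonempty_iff_ne_empty.2 h2⟩
  have : CompactSpace K := isCompact_iff_compactSpace.1 hK
  have : Nonempty K := hne.to_subtype
  let W : ℕ → Set K := fun m => ⋃ n ∈ Set.Ici m, Subtype.val ⁻¹' V n
  have hWo : ∀ m, IsOpen (W m) := by
    intro m
    apply isOpen_biUnion
    intro n _
    exact (hV n).preimage continuous_subtype_val
  have hWd : ∀ m, Dense (W m) := by
    intro m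
    rw [dense_iff_inter_open]
    intro Z hZ hZne
    obtain ⟨Z', hZ', hZZ⟩ := isOpen_induced_iff.1 hZ
    obtain ⟨x, hx⟩ := hZne
    have hx' : x.1 ∈ Z' := by
      rw [← hZZ] at hx
      exact hx
    obtain ⟨j, hxj, hj⟩ := hO x.1 Z' hZ' hx'
    obtain ⟨n, hn, y, hy⟩ := hcon' m j ⟨x.1, x.2, hxj⟩
    refine ⟨⟨y, hy.1.1⟩, ?_, ?_⟩
    · rw [← hZZ]
      exact hj hy.1.2
    · exact Set.mem_biUnion (show n ∈ Set.Ici m from hn) hy.2
  obtain ⟨x, hx⟩ := (dense_iInter_of_isOpen_nat hWo hWd).nonempty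
  apply hd x.1 x.2
  rw [Filter.frequently_atTop]
  intro m
  have h1 := Set.mem_iInter.1 hx m
  obtain ⟨n, hn, hxn⟩ := Set.mem_iUnion₂.1 h1
  exact ⟨n, hn, hxn⟩

lemma prob : IsProbabilityMeasure coinMeas := by
  unfold coinMeas
  infer_instance

lemma card_bound (U : ℕ → ℕ → Set Cantor)
    (hU : ∀ (n : ℕ) (s : Finset ℕ),
      (coinMeas (⋂ i ∈ s, (U n i)ᶜ)).toReal ≤ (1 - (2⁻¹ : ℝ) ^ n) ^ s.card)
    (L : Set Cantor) (hL : coinMeas L ≠ 0) :
    ∃ N : ℕ, ∀ n, N ≤ n → {i | L ∩ U n i = ∅}.Finite ∧ {i | L ∩ U n i = ∅}.ncard ≤ n * 2 ^ n := by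
  have := prob
  have hc : 0 < (coinMeas L).toReal := ENNReal.toReal_pos hL (measure_ne_top _ _)
  obtain ⟨N, hN⟩ := exists_nat_ge (-Real.log (coinMeas L).toReal)
  refine ⟨N, ?_⟩
  intro n hn
  have key : ∀ s : Finset ℕ, (↑s : Set ℕ) ⊆ {i | L ∩ U n i = ∅} → s.card ≤ n * 2 ^ n := by
    intro s hs
    have h1 : L ⊆ ⋂ i ∈ s, (U n i)ᶜ := by
      intro x hx
      rw [Set.mem_iInter₂]
      intro i hi hxi
      have h0 : L ∩ U n i = ∅ := hs hi
      have h00 : x ∈ L ∩ U n i := ⟨hx, hxi⟩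
      rw [h0] at h00
      exact h00
    have h2 : (coinMeas L).toReal ≤ (1 - (2⁻¹ : ℝ) ^ n) ^ s.card :=
      le_trans (ENNReal.toReal_mono (measure_ne_top _ _) (measure_mono h1)) (hU n s)
    have h3 : (1 - (2⁻¹ : ℝ) ^ n) ^ s.card ≤ Real.exp (-(s.card * (2⁻¹ : ℝ) ^ n)) := by
      have h4 : 1 - (2⁻¹ : ℝ) ^ n ≤ Real.exp (-(2⁻¹ : ℝ) ^ n) := by
        have := Real.add_one_le_exp (-(2⁻¹ : ℝ) ^ n)
        linarith
      have h5 : 0 ≤ 1 - (2⁻¹ : ℝ) ^ n := by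
        have := pow_le_one₀ (n := n) (by norm_num : (0 : ℝ) ≤ 2⁻¹) (by norm_num)
        linarith
      have h6 : Real.exp (-(2⁻¹ : ℝ) ^ n) ^ s.card = Real.exp (-(s.card * (2⁻¹ : ℝ) ^ n)) := by
        rw [← Real.exp_nat_mul]
        congr 1
        ring
      rw [← h6]
      exact pow_le_pow_left₀ h5 h4 _
    have h6 : Real.log (coinMeas L).toReal ≤ -(s.card * (2⁻¹ : ℝ) ^ n) := by
      rw [Real.log_le_iff_le_exp hc]
      exact h2.trans h3
    have h7 : (s.card : ℝ) * (2⁻¹ : ℝ) ^ n ≤ n := by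
      have : (N : ℝ) ≤ n := by exact_mod_cast hn
      linarith
    have h8 : (s.card : ℝ) ≤ n * 2 ^ n := by
      have h9 : (s.card : ℝ) = s.card * (2⁻¹ : ℝ) ^ n * 2 ^ n := by
        rw [mul_assoc, ← mul_pow]
        norm_num
      rw [h9]
      exact mul_le_mul_of_nonneg_right h7 (by positivity)
    exact_mod_cast h8
  have hfin : {i | L ∩ U n i = ∅}.Finite := by
    by_contra hinf
    obtain ⟨s, hs, hcard⟩ := Set.Infinite.exists_subset_card_eq hinf (n * 2 ^ n + 1)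
    have := key s hs
    omega
  refine ⟨hfin, ?_⟩
  rw [Set.ncard_eq_toFinset_card _ hfin]
  apply key
  rw [hfin.coe_toFinset]

open Classical in
/-- the slalom -/
noncomputable def SS (U : ℕ → ℕ → Set Cantor) (O : ℕ → Set Cantor) (K : Set Cantor) (n : ℕ) :
    Finset ℕ :=
  (Finset.range (n + 1)).biUnion fun j =>
    if h : {i | K ∩ O j ∩ U n i = ∅}.Finite ∧ {i | K ∩ O j ∩ U n i = ∅}.ncard ≤ n * 2 ^ n then
      h.1.toFinset else ∅

lemma slal_SS (U : ℕ → ℕ → Set Cantor) (O : ℕ → Set Cantor) (K : Set Cantor) (n : ℕ) :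
    (SS U O K n).card ≤ (n + 1) * (n * 2 ^ n) := by
  classical
  unfold SS
  refine le_trans Finset.card_biUnion_le ?_
  refine le_trans (Finset.sum_le_card_nsmul _ _ (n * 2 ^ n) ?_) ?_
  · intro j _
    split_ifs with h
    · rw [← Set.ncard_eq_toFinset_card _ h.1]
      exact h.2
    · simp
  · simp

lemma mem_SS (U : ℕ → ℕ → Set Cantor) (O : ℕ → Set Cantor) (K : Set Cantor) (n j i : ℕ)
    (hj : j ≤ n)
    (h : {i | K ∩ O j ∩ U n i = ∅}.Finite ∧ {i | K ∩ O j ∩ U n i = ∅}.ncard ≤ n * 2 ^ n)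
    (hi : K ∩ O j ∩ U n i = ∅) : i ∈ SS U O K n := by
  classical
  unfold SS
  rw [Finset.mem_biUnion]
  refine ⟨j, Finset.mem_range.2 (by omega), ?_⟩
  rw [dif_pos h, Set.Finite.mem_toFinset]
  exact hi

end HRDM

theorem specHRD (hIND : SpecIND) (hCPT : SpecCPT) : SpecHRD := by
  classical
  obtain ⟨U, hU1, hU2⟩ := hIND
  obtain ⟨O, hOo, hO⟩ := HRDM.exists_basis
  refine ⟨fun n => (n + 1) * (n * 2 ^ n), fun f => {x | ∃ᶠ n in atTop, x ∈ U n (f n)},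
    fun A => if h : coinMeas A = 0 then HRDM.SS U O (hCPT A h).choose else fun _ => ∅,
    ?_, ?_, ?_⟩
  · intro f
    apply measure_setOfPred_frequently_eq_zero
    have h1 : ∑' n : ℕ, coinMeas {x | x ∈ U n (f n)} ≤ ∑' n : ℕ, (2⁻¹ : ENNReal) ^ n :=
      ENNReal.tsum_le_tsum fun n => (hU1 n (f n)).2
    have h2 : ∑' n : ℕ, (2⁻¹ : ENNReal) ^ n ≠ ⊤ := by
      rw [ENNReal.tsum_geometric]
      simp
    exact ne_top_of_le_ne_top h2 h1
  · intro A n
    dsimp only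
    split_ifs with h
    · exact HRDM.slal_SS U O _ n
    · simp
  · intro f A hA hG
    obtain ⟨hKc, hKn, hKd, hKp⟩ := (hCPT A hA).choose_spec
    dsimp only
    rw [dif_pos hA]
    obtain ⟨m, j, hne, hmj⟩ := HRDM.baire O hO _ hKc hKn (fun n => U n (f n))
      (fun n => (hU1 n (f n)).1) (fun x hx hfr => Set.disjoint_left.1 hKd hx (hG hfr))
    obtain ⟨N, hN⟩ := HRDM.card_bound U hU2 _ (hKp (O j) (hOo j) hne)
    unfold Cap
    filter_upwards [eventually_ge_atTop (max m (max j N))] with n hn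
    have hm : m ≤ n := le_trans (le_max_left _ _) hn
    have hj : j ≤ n := le_trans (le_trans (le_max_left _ _) (le_max_right _ _)) hn
    have hN' : N ≤ n := le_trans (le_trans (le_max_right _ _) (le_max_right _ _)) hn
    exact HRDM.mem_SS U O _ n j (f n) hj (hN n hN') (hmj n hm)

end Pool.Agent.Lib.MP2148a5
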