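import Pool.Agent.Lib.MP_2148a5_lc.LZ.Spec

/-!
# MP_2148a5_lc, part LZ: module IND
-/

set_option autoImplicit false

namespace Pool.Agent.Lib.MP2148a5

open Set Filter Topology MeasureTheory Cardinal

namespace INDM

theorem coin_sing (b : Bool) : coin {b} = 2⁻¹ := by
  rw [coin, Measure.smul_apply, Measure.count_singleton, smul_eq_mul, mul_one]

instance : IsProbabilityMeasure coinMeas := by
  unfold coinMeas
  infer_instance

/-- the first `n` coordinates are `false` -/
def AA (n : ℕ) : Set Cantor := Set.pi (Finset.range n : Set ℕ) (fun _ => {false})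

theorem meas_AA (n : ℕ) : coinMeas (AA n) = (2⁻¹ : ENNReal) ^ n := by
  unfold AA coinMeas
  rw [Measure.infinitePi_pi _ (fun i _ => measurableSet_singleton _)]
  simp [coin_sing]

theorem measurable_AA (n : ℕ) : MeasurableSet (AA n) := by
  unfold AA
  exact MeasurableSet.pi (Set.to_countable _) (fun i _ => measurableSet_singleton _)

/-- the blocks -/
def Phi (x : Cantor) : ℕ → Cantor := fun i l => x (Nat.pair i l)

theorem measurable_Phi : Measurable Phi := by
  unfold Phi
  fun_prop

theorem continuous_Phi : Continuous Phi := by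
  unfold Phi
  fun_prop

theorem map_Phi : coinMeas.map Phi = Measure.infinitePi (fun _ : ℕ => coinMeas) := by
  have hf : Function.Injective (fun p : ℕ × ℕ => Nat.pair p.1 p.2) :=
    fun p q h => Nat.pairEquiv.injective h
  have h1 := Measure.map_infinitePi_infinitePi_of_inj (P := fun _ : ℕ => coin) hf
  have h2 := Measure.infinitePi_map_curry (ι := ℕ) (κ := ℕ) (X := Bool) (fun _ _ => coin)
  have h3 : Phi = (MeasurableEquiv.curry ℕ ℕ Bool) ∘
      (fun (ω : Cantor) (p : ℕ × ℕ) => ω (Nat.pair p.1 p.2)) := rfl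
  rw [h3, ← Measure.map_map (MeasurableEquiv.measurable _) (by fun_prop)]
  unfold coinMeas
  rw [h1]
  exact h2

theorem isOpen_AA (n : ℕ) : IsOpen (AA n) := by
  unfold AA
  exact isOpen_set_pi (Finset.finite_toSet _) (fun i _ => isOpen_discrete _)

end INDM

open INDM in
theorem specIND : SpecIND := by
  refine ⟨fun n i => {x | Phi x i ∈ AA n}, ?_, ?_⟩
  · intro n i
    refine ⟨(isOpen_AA n).preimage ((continuous_apply i).comp continuous_Phi), ?_⟩
    have h1 : {x : Cantor | Phi x i ∈ AA n} = Phi ⁻¹' (Set.pi (({i} : Finset ℕ) : Set ℕ)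
        (fun _ => AA n)) := by
      ext x
      simp
    show coinMeas {x : Cantor | Phi x i ∈ AA n} ≤ _
    rw [h1, ← Measure.map_apply measurable_Phi
      (MeasurableSet.pi (Set.to_countable _) (fun _ _ => measurable_AA n)), map_Phi,
      Measure.infinitePi_pi _ (fun _ _ => measurable_AA n)]
    simp [meas_AA]
  · intro n s
    have h1 : (⋂ i ∈ s, ({x : Cantor | Phi x i ∈ AA n})ᶜ) = Phi ⁻¹' (Set.pi (s : Set ℕ)
        (fun _ => (AA n)ᶜ)) := by
      ext x
      simp
    show (coinMeas (⋂ i ∈ s, ({x : Cantor | Phi x i ∈ AA n})ᶜ)).toReal ≤ _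
    rw [h1, ← Measure.map_apply measurable_Phi
      (MeasurableSet.pi (Set.to_countable _) (fun _ _ => (measurable_AA n).compl)), map_Phi,
      Measure.infinitePi_pi _ (fun _ _ => (measurable_AA n).compl), Finset.prod_const,
      ENNReal.toReal_pow]
    have h2 : (coinMeas (AA n)ᶜ).toReal = 1 - (2⁻¹ : ℝ) ^ n := by
      rw [prob_compl_eq_one_sub (measurable_AA n), meas_AA,
        ENNReal.toReal_sub_of_le (pow_le_one' (by simp) n) ENNReal.one_ne_top]
      simp
    rw [h2]

end Pool.Agent.Lib.MP2148a5
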