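import Pool.Agent.Lib.MP_2148a5_lc.LZ.Spec

/-!
# MP_2148a5_lc, part LZ, module LOC: localization and `Σ_{I,ε}` have the same cardinals
-/

set_option autoImplicit false

namespace Pool.Agent.Lib.MP2148a5

open Set Filter Topology MeasureTheory Cardinal

namespace LOCM

/-- `locB` is attained -/
theorem locB_att : ∃ F : Set (ℕ → ℕ), #F = locB ∧
    ∀ S, Slal (fun n => n) S → ∃ f ∈ F, ¬ Cap f S := by
  have hne : {κ : Cardinal | ∃ F : Set (ℕ → ℕ), #F = κ ∧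
      ∀ S, Slal (fun n => n) S → ∃ f ∈ F, ¬ Cap f S}.Nonempty := by
    refine ⟨#(Set.univ : Set (ℕ → ℕ)), Set.univ, rfl, ?_⟩
    intro S _
    refine ⟨fun n => (S n).sup id + 1, Set.mem_univ _, ?_⟩
    intro h
    obtain ⟨n, hn⟩ := h.exists
    have h1 : (S n).sup id + 1 ≤ (S n).sup id := Finset.le_sup (f := id) hn
    omega
  exact csInf_mem hne

/-- `locD` is attained -/
theorem locD_att : ∃ D : Set (ℕ → Finset ℕ), (∀ S ∈ D, Slal (fun n => n) S) ∧ #D = locD ∧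
    ∀ f, ∃ S ∈ D, Cap f S := by
  have hne : {κ : Cardinal | ∃ D : Set (ℕ → Finset ℕ), (∀ S ∈ D, Slal (fun n => n) S) ∧ #D = κ ∧
      ∀ f, ∃ S ∈ D, Cap f S}.Nonempty := by
    refine ⟨#{S : ℕ → Finset ℕ | Slal (fun n => n) S}, {S | Slal (fun n => n) S},
      fun S hS => hS, rfl, ?_⟩
    intro f
    refine ⟨fun n => if n = 0 then ∅ else {f n}, ?_, ?_⟩
    · intro n
      by_cases hn : n = 0
      · simp [hn]
      · simp only [hn, if_false, Finset.card_singleton]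
        omega
    · filter_upwards [eventually_gt_atTop 0] with n hn
      simp [hn.ne']
  exact csInf_mem hne

variable {I : ℕ → Finset ℕ} {ε : ℕ → ℝ}

/-- `sigB` is attained -/
theorem sigB_att (Φ : (ℕ → ℕ) → ∀ n, Set ((I n) → Bool)) (G : (∀ n, Set ((I n) → Bool)) → ℕ → ℕ)
    (hΦ : ∀ f, Sig I ε (Φ f))
    (hG : ∀ f ψ, Sig I ε ψ → (∀ᶠ n in atTop, Φ f n ⊆ ψ n) → ∀ᶠ n in atTop, f n ≤ G ψ n) :
    ∃ F : Set (∀ n, Set ((I n) → Bool)), (∀ φ ∈ F, Sig I ε φ) ∧ #F = sigB I ε ∧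
      ∀ ψ, Sig I ε ψ → ∃ φ ∈ F, ¬ Inc I φ ψ := by
  have hne : {κ : Cardinal | ∃ F : Set (∀ n, Set ((I n) → Bool)), (∀ φ ∈ F, Sig I ε φ) ∧
      #F = κ ∧ ∀ ψ, Sig I ε ψ → ∃ φ ∈ F, ¬ Inc I φ ψ}.Nonempty := by
    refine ⟨#{φ | Sig I ε φ}, {φ | Sig I ε φ}, fun φ hφ => hφ, rfl, ?_⟩
    intro ψ hψ
    refine ⟨Φ (fun n => G ψ n + 1), hΦ _, ?_⟩
    intro h
    obtain ⟨n, hn⟩ := (hG _ ψ hψ h).exists
    omega
  exact csInf_mem hne

/-- `sigD` is attained -/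
theorem sigD_att (I : ℕ → Finset ℕ) (ε : ℕ → ℝ) :
    ∃ F : Set (∀ n, Set ((I n) → Bool)), (∀ φ ∈ F, Sig I ε φ) ∧ #F = sigD I ε ∧
      ∀ φ, Sig I ε φ → ∃ ψ ∈ F, Inc I φ ψ := by
  have hne : {κ : Cardinal | ∃ F : Set (∀ n, Set ((I n) → Bool)), (∀ φ ∈ F, Sig I ε φ) ∧
      #F = κ ∧ ∀ φ, Sig I ε φ → ∃ ψ ∈ F, Inc I φ ψ}.Nonempty := by
    refine ⟨#{φ | Sig I ε φ}, {φ | Sig I ε φ}, fun φ hφ => hφ, rfl, ?_⟩
    intro φ hφ
    exact ⟨φ, hφ, Eventually.of_forall fun n => Subset.rfl⟩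
  exact csInf_mem hne

end LOCM

theorem specLOC (hTUK : SpecTUK) (hCOD : SpecCOD) (hREV : SpecREV) : SpecLOC := by
  intro I ε hI hε hs hU
  obtain ⟨Φ, G, hΦ, hG⟩ := hTUK I ε hI hε hs hU
  obtain ⟨X, Ψ, hΨ, hX⟩ := hREV I ε hε
  choose Φb Sb hΦb hSb hCap using fun b => hCOD I ε hI hε hs hU b
  constructor
  · apply le_antisymm
    · -- `sigB ≤ locB`
      obtain ⟨F, hF, hFS⟩ := LOCM.locB_att
      rw [← hF]
      by_cases hg : ∃ g : ℕ → ℕ, ∀ f ∈ F, ∀ᶠ n in atTop, f n ≤ g n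
      · obtain ⟨g, hg⟩ := hg
        refine (csInf_le' ?_ : sigB I ε ≤ #(Φb g '' F)).trans Cardinal.mk_image_le
        refine ⟨Φb g '' F, ?_, rfl, ?_⟩
        · rintro φ ⟨f, -, rfl⟩
          exact hΦb g f
        · intro ψ hψ
          obtain ⟨f, hf, hfS⟩ := hFS (Sb g ψ) (hSb g ψ)
          exact ⟨Φb g f, ⟨f, hf, rfl⟩, fun h => hfS (hCap g f ψ (hg f hf) hψ h)⟩
      · refine (csInf_le' ?_ : sigB I ε ≤ #(Φ '' F)).trans Cardinal.mk_image_le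
        refine ⟨Φ '' F, ?_, rfl, ?_⟩
        · rintro φ ⟨f, -, rfl⟩
          exact hΦ f
        · intro ψ hψ
          by_contra hcon
          apply hg
          refine ⟨G ψ, fun f hf => ?_⟩
          by_contra hf2
          exact hcon ⟨Φ f, ⟨f, hf, rfl⟩, fun h => hf2 (hG f ψ hψ h)⟩
    · -- `locB ≤ sigB`
      obtain ⟨F, hF1, hF2, hF3⟩ := LOCM.sigB_att Φ G hΦ hG
      rw [← hF2]
      refine (csInf_le' ?_ : locB ≤ #(X '' F)).trans Cardinal.mk_image_le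
      refine ⟨X '' F, rfl, ?_⟩
      intro S hS
      obtain ⟨φ, hφ, hn⟩ := hF3 (Ψ S) (hΨ S hS)
      exact ⟨X φ, ⟨φ, hφ, rfl⟩, fun h => hn (hX φ S (hF1 φ hφ) hS h)⟩
  · apply le_antisymm
    · -- `sigD ≤ locD`
      obtain ⟨D, hD1, hD2, hD3⟩ := LOCM.locD_att
      rw [← hD2]
      refine (csInf_le' ?_ : sigD I ε ≤ #(Ψ '' D)).trans Cardinal.mk_image_le
      refine ⟨Ψ '' D, ?_, rfl, ?_⟩
      · rintro φ ⟨S, hS, rfl⟩
        exact hΨ S (hD1 S hS)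
      · intro φ hφ
        obtain ⟨S, hS, hc⟩ := hD3 (X φ)
        exact ⟨Ψ S, ⟨S, hS, rfl⟩, hX φ S hφ (hD1 S hS) hc⟩
    · -- `locD ≤ sigD`
      obtain ⟨F, hF1, hF2, hF3⟩ := LOCM.sigD_att I ε
      have hinf : F.Infinite := by
        intro hfin
        obtain ⟨ψ, hψ, hi⟩ := hF3 (Φ fun n => 1 + ∑ ψ ∈ hfin.toFinset, G ψ n) (hΦ _)
        obtain ⟨n, hn⟩ := (hG _ ψ (hF1 ψ hψ) hi).exists
        have h1 : G ψ n ≤ ∑ ψ ∈ hfin.toFinset, G ψ n :=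
          Finset.single_le_sum (f := fun ψ => G ψ n) (fun _ _ => Nat.zero_le _)
            ((Set.Finite.mem_toFinset hfin).2 hψ)
        omega
      rw [← hF2]
      have hle : #((fun p : F × F => Sb (G p.1.1) p.2.1) '' Set.univ) ≤ #F := by
        refine Cardinal.mk_image_le.trans ?_
        rw [Cardinal.mk_univ, Cardinal.mk_prod, Cardinal.lift_id]
        have h1 : ℵ₀ ≤ #F := by
          have := hinf.to_subtype
          exact Cardinal.aleph0_le_mk F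
        exact (Cardinal.mul_eq_self h1).le
      refine (csInf_le' ?_ : locD ≤
        #((fun p : F × F => Sb (G p.1.1) p.2.1) '' Set.univ)).trans hle
      refine ⟨(fun p : F × F => Sb (G p.1.1) p.2.1) '' Set.univ, ?_, rfl, ?_⟩
      · rintro S ⟨p, -, rfl⟩
        exact hSb _ _
      · intro f
        obtain ⟨ψ, hψ, hi⟩ := hF3 (Φ f) (hΦ f)
        have hb := hG f ψ (hF1 ψ hψ) hi
        obtain ⟨ψ', hψ', hi'⟩ := hF3 (Φb (G ψ) f) (hΦb (G ψ) f)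
        exact ⟨Sb (G ψ) ψ', ⟨(⟨ψ, hψ⟩, ⟨ψ', hψ'⟩), Set.mem_univ _, rfl⟩,
          hCap (G ψ) f ψ' hb (hF1 ψ' hψ') hi'⟩

end Pool.Agent.Lib.MP2148a5
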