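import Pool.Agent.Lib.MP_2148a5_lc.LZ.Spec

/-!
# Module NUB: Bartoszynski's theorem, `add(N)` and `cof(N)` by localization
-/

set_option autoImplicit false

namespace Pool.Agent.Lib.MP2148a5

open Set Filter Topology MeasureTheory Cardinal

namespace NUBM

lemma exists_not_cap (S : ℕ → Finset ℕ) : ∃ f : ℕ → ℕ, ¬ Cap f S := by
  choose f hf using fun n => Infinite.exists_notMem_finset (S n)
  refine ⟨f, fun h => ?_⟩
  obtain ⟨n, hn⟩ := (show ∀ᶠ n in atTop, f n ∈ S n from h).exists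
  exact hf n hn

lemma exists_cap (f : ℕ → ℕ) : ∃ S : ℕ → Finset ℕ, Slal (fun n => n) S ∧ Cap f S := by
  refine ⟨fun n => if n = 0 then ∅ else {f n}, ?_, ?_⟩
  · intro n
    by_cases h : n = 0
    · simp [h]
    · simp only [h, if_false, Finset.card_singleton]
      omega
  · filter_upwards [eventually_ge_atTop 1] with n hn
    have h : n ≠ 0 := by omega
    simp [h]

end NUBM

open NUBM in
theorem specNUB (hESY : SpecESY) (hHRD : SpecHRD) (hWID : SpecWID) : SpecNUB := by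
  obtain ⟨X, H, hH0, hH⟩ := hESY
  obtain ⟨w, G, S, hG0, hS, hGS⟩ := hHRD
  obtain ⟨X₁, D, hD, hXD⟩ := hWID w
  -- a family of null sets with a union which is not null gives a family which is not localized
  have L1 : ∀ 𝒜 : Set (Set Cantor), 𝒜 ⊆ NN → ⋃₀ 𝒜 ∉ NN →
      ∀ T, Slal (fun n => n) T → ∃ f ∈ X '' 𝒜, ¬ Cap f T := by
    intro 𝒜 h𝒜 hU T hT
    by_contra hcon
    push Not at hcon
    apply hU
    have h1 : ⋃₀ 𝒜 ⊆ H T := by
      refine Set.sUnion_subset fun A hA => ?_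
      exact hH A T (h𝒜 hA) hT (hcon _ ⟨A, hA, rfl⟩)
    exact measure_mono_null h1 (hH0 T hT)
  -- a family of functions which is not localized gives null sets with a union which is not null
  have L2 : ∀ F : Set (ℕ → ℕ), (∀ T, Slal (fun n => n) T → ∃ f ∈ F, ¬ Cap f T) →
      (fun f => G (X₁ f)) '' F ⊆ NN ∧ ⋃₀ ((fun f => G (X₁ f)) '' F) ∉ NN := by
    intro F hF
    refine ⟨?_, ?_⟩
    · rintro _ ⟨f, -, rfl⟩
      exact hG0 _
    · intro hU
      obtain ⟨f, hf, hf'⟩ := hF (D (S (⋃₀ ((fun f => G (X₁ f)) '' F)))) (hD _ (hS _))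
      apply hf'
      refine hXD f _ (hS _) (hGS _ _ hU ?_)
      exact Set.subset_sUnion_of_mem ⟨f, hf, rfl⟩
  have hall : ∀ T : ℕ → Finset ℕ, Slal (fun n => n) T → ∃ f ∈ (Set.univ : Set (ℕ → ℕ)), ¬ Cap f T := by
    intro T _
    obtain ⟨f, hf⟩ := exists_not_cap T
    exact ⟨f, Set.mem_univ _, hf⟩
  constructor
  · apply le_antisymm
    · have hne : {κ | ∃ F : Set (ℕ → ℕ), #F = κ ∧ ∀ T, Slal (fun n => n) T →
          ∃ f ∈ F, ¬ Cap f T}.Nonempty := ⟨_, Set.univ, rfl, hall⟩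
      obtain ⟨F, hF1, hF2⟩ := csInf_mem hne
      obtain ⟨h1, h2⟩ := L2 F hF2
      have h3 : addC NN ≤ #((fun f => G (X₁ f)) '' F) := csInf_le' ⟨_, h1, rfl, h2⟩
      calc addC NN ≤ #((fun f => G (X₁ f)) '' F) := h3
        _ ≤ #F := mk_image_le
        _ = locB := hF1
    · have hne : {κ | ∃ F : Set (Set Cantor), F ⊆ NN ∧ #F = κ ∧ ⋃₀ F ∉ NN}.Nonempty := by
        obtain ⟨h1, h2⟩ := L2 Set.univ hall
        exact ⟨_, _, h1, rfl, h2⟩
      obtain ⟨F, hF0, hF1, hF2⟩ := csInf_mem hne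
      have h3 : locB ≤ #(X '' F) := csInf_le' ⟨_, rfl, L1 F hF0 hF2⟩
      calc locB ≤ #(X '' F) := h3
        _ ≤ #F := mk_image_le
        _ = addC NN := hF1
  · apply le_antisymm
    · have hne : {κ | ∃ E : Set (ℕ → Finset ℕ), (∀ T ∈ E, Slal (fun n => n) T) ∧ #E = κ ∧
          ∀ f, ∃ T ∈ E, Cap f T}.Nonempty := by
        refine ⟨_, {T | Slal (fun n => n) T}, fun T hT => hT, rfl, fun f => ?_⟩
        obtain ⟨T, h1, h2⟩ := exists_cap f
        exact ⟨T, h1, h2⟩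
      obtain ⟨E, hE0, hE1, hE2⟩ := csInf_mem hne
      have h3 : cofC NN ≤ #(H '' E) := by
        refine csInf_le' ⟨_, ?_, rfl, ?_⟩
        · rintro _ ⟨T, hT, rfl⟩
          exact hH0 T (hE0 T hT)
        · intro A hA
          obtain ⟨T, hT, hT'⟩ := hE2 (X A)
          exact ⟨H T, ⟨T, hT, rfl⟩, hH A T hA (hE0 T hT) hT'⟩
      calc cofC NN ≤ #(H '' E) := h3
        _ ≤ #E := mk_image_le
        _ = locD := hE1
    · have hne : {κ | ∃ F : Set (Set Cantor), F ⊆ NN ∧ #F = κ ∧ ∀ A ∈ NN, ∃ B ∈ F, A ⊆ B}.Nonempty :=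
        ⟨_, NN, subset_rfl, rfl, fun A hA => ⟨A, hA, subset_rfl⟩⟩
      obtain ⟨F, hF0, hF1, hF2⟩ := csInf_mem hne
      have h3 : locD ≤ #((fun A => D (S A)) '' F) := by
        refine csInf_le' ⟨_, ?_, rfl, ?_⟩
        · rintro _ ⟨A, -, rfl⟩
          exact hD _ (hS _)
        · intro f
          obtain ⟨A, hA, hA'⟩ := hF2 (G (X₁ f)) (hG0 _)
          exact ⟨_, ⟨A, hA, rfl⟩, hXD f _ (hS _) (hGS _ _ (hF0 hA) hA')⟩
      calc locD ≤ #((fun A => D (S A)) '' F) := h3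
        _ ≤ #F := mk_image_le
        _ = cofC NN := hF1

end Pool.Agent.Lib.MP2148a5
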