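import Pool.Agent.Lib.MP_2148a5_lc.LZ.Spec

/-!
# MP_2148a5, LZ, module REV: `Σ_{I,ε}` is reducible to localization
-/

set_option autoImplicit false

namespace Pool.Agent.Lib.MP2148a5

open Set Filter Topology MeasureTheory Cardinal

namespace REVM

theorem sig_bound {I : ℕ → Finset ℕ} {ε : ℕ → ℝ} (hε : ∀ n, 0 < ε n)
    {φ : ∀ n, Set ((I n) → Bool)} (hφ : Sig I ε φ) :
    ∃ r : ℕ → ℕ, StrictMono r ∧ ∀ m n, r m ≤ n →
      ((φ n).ncard : ℝ) * ((m : ℝ) + 1) ^ 3 ≤ 2 ^ (I n).card * ε n := by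
  have h1 : ∀ m : ℕ, ∃ R : ℕ, ∀ n ≥ R,
      ((φ n).ncard : ℝ) * ((m : ℝ) + 1) ^ 3 ≤ 2 ^ (I n).card * ε n := by
    intro m
    have hpos : (0 : ℝ) < 1 / ((m : ℝ) + 1) ^ 3 := by positivity
    have h2 : ∀ᶠ n in atTop,
        ((φ n).ncard : ℝ) / (2 ^ (I n).card * ε n) < 1 / ((m : ℝ) + 1) ^ 3 :=
      Filter.Tendsto.eventually_lt_const hpos hφ
    obtain ⟨R, hR⟩ := eventually_atTop.1 h2
    refine ⟨R, fun n hn => ?_⟩
    have h3 := hR n hn
    have h4 : 0 < 2 ^ (I n).card * ε n := by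
      have := hε n
      positivity
    rw [div_lt_div_iff₀ h4 (by positivity)] at h3
    linarith
  choose R hR using h1
  refine ⟨fun m => ∑ i ∈ Finset.range (m + 1), (R i + 1), ?_, fun m n hmn => hR m n ?_⟩
  · apply strictMono_nat_of_lt_succ
    intro m
    rw [Finset.sum_range_succ _ (m + 1)]
    omega
  · simp only [Finset.sum_range_succ] at hmn
    show R m ≤ n
    omega

theorem tele (M K : ℕ) (hM : 1 ≤ M) :
    ∑ m ∈ Finset.Ico M K, 1 / ((m : ℝ) + 1) ^ 2 ≤ 1 / (M : ℝ) := by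
  have hM0 : (0 : ℝ) < M := by exact_mod_cast hM
  rcases lt_or_ge K M with h | h
  · rw [Finset.Ico_eq_empty (by omega), Finset.sum_empty]
    positivity
  · have key : ∑ m ∈ Finset.Ico M K, 1 / ((m : ℝ) + 1) ^ 2 ≤ 1 / (M : ℝ) - 1 / (K : ℝ) := by
      induction K, h using Nat.le_induction with
      | base => simp
      | succ K hK ih =>
        rw [Finset.sum_Ico_succ_top hK]
        have hK0 : (0 : ℝ) < K := lt_of_lt_of_le hM0 (by exact_mod_cast hK)
        have h1 : 1 / ((K : ℝ) + 1) ^ 2 ≤ 1 / (K : ℝ) - 1 / ((K : ℝ) + 1) := by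
          rw [div_sub_div _ _ hK0.ne' (by positivity), div_le_div_iff₀ (by positivity)
            (by positivity)]
          nlinarith
        push_cast
        linarith
    have hK0 : (0 : ℝ) < K := lt_of_lt_of_le hM0 (by exact_mod_cast h)
    have : 0 < 1 / (K : ℝ) := by positivity
    linarith

end REVM

theorem specREV : SpecREV := by
  classical
  intro I ε hε
  let T : Type := Σ r : ℕ, (∀ n : Fin r, Set ((I n) → Bool))
  have hT : Countable T := inferInstance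
  obtain ⟨c, hc⟩ := exists_injective_nat T
  have hr : ∀ φ : (∀ n, Set ((I n) → Bool)), ∃ r : ℕ → ℕ, Sig I ε φ →
      (StrictMono r ∧ ∀ m n, r m ≤ n →
        ((φ n).ncard : ℝ) * ((m : ℝ) + 1) ^ 3 ≤ 2 ^ (I n).card * ε n) := by
    intro φ
    by_cases h : Sig I ε φ
    · obtain ⟨r, h1, h2⟩ := REVM.sig_bound hε h
      exact ⟨r, fun _ => ⟨h1, h2⟩⟩
    · exact ⟨id, fun h' => absurd h' h⟩
  choose r hr using hr
  let X : (∀ n, Set ((I n) → Bool)) → ℕ → ℕ := fun φ m => c ⟨r φ (m + 1), fun n => φ n⟩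
  let Ψ : (ℕ → Finset ℕ) → ∀ n, Set ((I n) → Bool) := fun S n =>
    {w | ∃ (m : ℕ) (t : T), c t ∈ S m ∧ ∃ hn : n < t.1, w ∈ t.2 ⟨n, hn⟩ ∧
      ((t.2 ⟨n, hn⟩).ncard : ℝ) * ((m : ℝ) + 1) ^ 3 ≤ 2 ^ (I n).card * ε n}
  refine ⟨X, Ψ, ?_, ?_⟩
  · intro S hS
    have hB : ∀ m, ∃ B : ℕ, ∀ t : T, c t ∈ S m → t.1 ≤ B := by
      intro m
      have hfin : {t : T | c t ∈ S m}.Finite := (S m).finite_toSet.preimage hc.injOn
      exact ⟨hfin.toFinset.sup (fun t => t.1), fun t ht =>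
        Finset.le_sup (f := fun t : T => t.1) (hfin.mem_toFinset.2 ht)⟩
    choose B hB using hB
    have key : ∀ M : ℕ, 1 ≤ M → ∀ n, (∀ m < M, B m ≤ n) →
        ((Ψ S n).ncard : ℝ) ≤ 2 ^ (I n).card * ε n / M := by
      intro M hM n hn
      have hM0 : (0 : ℝ) < M := by exact_mod_cast hM
      have hHpos : 0 < 2 ^ (I n).card * ε n := by
        have := hε n
        positivity
      set H := 2 ^ (I n).card * ε n with hH
      let g : ℕ → ℕ → Set ((I n) → Bool) := fun m s =>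
        {w | ∃ t : T, c t = s ∧ ∃ hn : n < t.1, w ∈ t.2 ⟨n, hn⟩ ∧
          ((t.2 ⟨n, hn⟩).ncard : ℝ) * ((m : ℝ) + 1) ^ 3 ≤ H}
      have hg : ∀ m s, ((g m s).ncard : ℝ) ≤ H / ((m : ℝ) + 1) ^ 3 := by
        intro m s
        rcases (g m s).eq_empty_or_nonempty with h | ⟨w, t, ht, hnt, hw, hcard⟩
        · rw [h, Set.ncard_empty, Nat.cast_zero]
          positivity
        · rw [le_div_iff₀ (by positivity)]
          have hsub : g m s ⊆ t.2 ⟨n, hnt⟩ := by
            rintro w' ⟨t', ht', hnt', hw', _⟩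
            have : t' = t := hc (ht'.trans ht.symm)
            subst this
            exact hw'
          have h2 : ((g m s).ncard : ℝ) ≤ ((t.2 ⟨n, hnt⟩).ncard : ℝ) := by
            exact_mod_cast Set.ncard_le_ncard hsub (Set.toFinite _)
          calc ((g m s).ncard : ℝ) * ((m : ℝ) + 1) ^ 3
              ≤ ((t.2 ⟨n, hnt⟩).ncard : ℝ) * ((m : ℝ) + 1) ^ 3 := by gcongr
            _ ≤ H := hcard
      obtain ⟨K, hK⟩ : ∃ K : ℕ, H < K := exists_nat_gt H
      have hsub : Ψ S n ⊆ ⋃ m ∈ Finset.Ico M K, ⋃ s ∈ S m, g m s := by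
        rintro w ⟨m, t, hts, hnt, hw, hcard⟩
        have hMm : M ≤ m := by
          by_contra hlt
          push Not at hlt
          have h1 := hB m t hts
          have h2 := hn m hlt
          omega
        have hmK : m < K := by
          have h1 : 1 ≤ (t.2 ⟨n, hnt⟩).ncard := (Set.ncard_pos (Set.toFinite _)).2 ⟨w, hw⟩
          have h3 : (1 : ℝ) ≤ ((t.2 ⟨n, hnt⟩).ncard : ℝ) := by exact_mod_cast h1
          have hm0 : (0 : ℝ) ≤ m := Nat.cast_nonneg m
          have h2 : ((m : ℝ) + 1) ^ 3 ≤ H := by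
            calc ((m : ℝ) + 1) ^ 3 = 1 * ((m : ℝ) + 1) ^ 3 := by ring
              _ ≤ ((t.2 ⟨n, hnt⟩).ncard : ℝ) * ((m : ℝ) + 1) ^ 3 := by gcongr
              _ ≤ H := hcard
          have h4 : ((m : ℝ) + 1) ≤ ((m : ℝ) + 1) ^ 3 :=
            le_self_pow₀ (by linarith) (by norm_num)
          have h5 : (m : ℝ) < K := by linarith
          exact_mod_cast h5
        simp only [Set.mem_iUnion, Finset.mem_Ico]
        exact ⟨m, ⟨hMm, hmK⟩, c t, hts, t, rfl, hnt, hw, hcard⟩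
      have h1 : (Ψ S n).ncard ≤ ∑ m ∈ Finset.Ico M K, ∑ s ∈ S m, (g m s).ncard := by
        refine (Set.ncard_le_ncard hsub (Set.toFinite _)).trans ?_
        refine (Finset.set_ncard_biUnion_le _ _).trans ?_
        exact Finset.sum_le_sum fun m _ => Finset.set_ncard_biUnion_le _ _
      have h2 : ((Ψ S n).ncard : ℝ) ≤ ∑ m ∈ Finset.Ico M K, ∑ s ∈ S m, ((g m s).ncard : ℝ) := by
        exact_mod_cast h1
      have h3 : ∀ m ∈ Finset.Ico M K, ∑ s ∈ S m, ((g m s).ncard : ℝ) ≤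
          H * (1 / ((m : ℝ) + 1) ^ 2) := by
        intro m _
        have h4 : ∑ s ∈ S m, ((g m s).ncard : ℝ) ≤ ∑ s ∈ S m, H / ((m : ℝ) + 1) ^ 3 :=
          Finset.sum_le_sum fun s _ => hg m s
        rw [Finset.sum_const, nsmul_eq_mul] at h4
        have h5 : ((S m).card : ℝ) ≤ (m : ℝ) + 1 := by
          have := hS m
          have h6 : ((S m).card : ℝ) ≤ (m : ℝ) := by exact_mod_cast this
          linarith
        calc ∑ s ∈ S m, ((g m s).ncard : ℝ) ≤ ((S m).card : ℝ) * (H / ((m : ℝ) + 1) ^ 3) := h4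
          _ ≤ ((m : ℝ) + 1) * (H / ((m : ℝ) + 1) ^ 3) := by gcongr
          _ = H * (1 / ((m : ℝ) + 1) ^ 2) := by
            have : (m : ℝ) + 1 ≠ 0 := by positivity
            field_simp
      calc ((Ψ S n).ncard : ℝ) ≤ ∑ m ∈ Finset.Ico M K, ∑ s ∈ S m, ((g m s).ncard : ℝ) := h2
        _ ≤ ∑ m ∈ Finset.Ico M K, H * (1 / ((m : ℝ) + 1) ^ 2) := Finset.sum_le_sum h3
        _ = H * ∑ m ∈ Finset.Ico M K, 1 / ((m : ℝ) + 1) ^ 2 := by rw [Finset.mul_sum]
        _ ≤ H * (1 / (M : ℝ)) := by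
          have := REVM.tele M K hM
          gcongr
        _ = H / M := by ring
    show Tendsto (fun n => ((Ψ S n).ncard : ℝ) / (2 ^ (I n).card * ε n)) atTop (𝓝 0)
    rw [Metric.tendsto_atTop]
    intro e he
    obtain ⟨M, hM⟩ := exists_nat_gt (1 / e)
    have he' : 0 < 1 / e := by positivity
    have hM0 : (0 : ℝ) < M := he'.trans hM
    have hM1 : 1 ≤ M := by exact_mod_cast hM0
    refine ⟨(Finset.range M).sup B, fun n hn => ?_⟩
    have h1 := key M hM1 n (fun m hm => (Finset.le_sup (Finset.mem_range.2 hm)).trans hn)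
    have hH : 0 < 2 ^ (I n).card * ε n := by
      have := hε n
      positivity
    rw [Real.dist_eq, sub_zero, abs_of_nonneg (div_nonneg (Nat.cast_nonneg _) hH.le),
      div_lt_iff₀ hH]
    refine h1.trans_lt ?_
    rw [div_lt_iff₀ hM0]
    have h2 : 1 < e * M := by
      rw [div_lt_iff₀ he] at hM
      linarith
    nlinarith
  · intro φ S hφ _ hcap
    obtain ⟨hmono, hbd⟩ := hr φ hφ
    obtain ⟨m0, hm0⟩ := eventually_atTop.1 hcap
    refine eventually_atTop.2 ⟨r φ m0, fun n hn => ?_⟩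
    have hex : ∃ a, n < r φ a := ⟨n + 1, lt_of_lt_of_le (Nat.lt_succ_self n) hmono.le_apply⟩
    have ha := Nat.find_spec hex
    have hm : m0 < Nat.find hex := by
      by_contra h
      push Not at h
      have := hmono.monotone h
      omega
    obtain ⟨m, hm'⟩ : ∃ m, Nat.find hex = m + 1 := ⟨Nat.find hex - 1, by omega⟩
    have h1 : r φ m ≤ n := by
      have := Nat.find_min hex (m := m) (by omega)
      omega
    have h2 : n < r φ (m + 1) := by
      rw [← hm']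
      exact ha
    intro w hw
    exact ⟨m, ⟨r φ (m + 1), fun n => φ n⟩, hm0 m (by omega), h2, hw, hbd m n h1⟩

end Pool.Agent.Lib.MP2148a5
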