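import Pool.Agent.Lib.MP_2148a5_lc.LZ.Spec

/-!
# SGE: additivity and cofinality of `E_{I,ε}`
-/

set_option autoImplicit false

namespace Pool.Agent.Lib.MP2148a5

open Set Filter Topology MeasureTheory Cardinal

namespace SGEM

variable {I : ℕ → Finset ℕ} {ε : ℕ → ℝ}

/-- one more word -/
def pls (φ : ∀ n, Set ((I n) → Bool)) : ∀ n, Set ((I n) → Bool) :=
  fun n => insert (fun _ => false) (φ n)

theorem den_pos (hε : ∀ n, 0 < ε n) (n : ℕ) : 0 < (2 : ℝ) ^ (I n).card * ε n :=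
  mul_pos (by positivity) (hε n)

theorem tend_one (hε : ∀ n, 0 < ε n) (hs : ∀ x : Cantor, {x} ∈ EI I ε) :
    Tendsto (fun n => (1 : ℝ) / (2 ^ (I n).card * ε n)) atTop (𝓝 0) := by
  obtain ⟨φ, hφ, hx⟩ := hs (fun _ => false)
  have h1 : ∀ᶠ n in atTop, res I (fun _ => false) n ∈ φ n := hx (mem_singleton _)
  refine squeeze_zero' (Eventually.of_forall fun n => ?_) ?_ hφ
  · exact div_nonneg zero_le_one (den_pos hε n).le
  · filter_upwards [h1] with n hn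
    refine div_le_div_of_nonneg_right ?_ (den_pos hε n).le
    have h2 : 0 < (φ n).ncard := (Set.ncard_pos (Set.toFinite _)).mpr ⟨_, hn⟩
    exact_mod_cast h2

theorem sig_pls (hε : ∀ n, 0 < ε n) (hs : ∀ x : Cantor, {x} ∈ EI I ε)
    {φ : ∀ n, Set ((I n) → Bool)} (hφ : Sig I ε φ) : Sig I ε (pls φ) := by
  have h1 := hφ.add (tend_one hε hs)
  rw [add_zero] at h1
  refine squeeze_zero (fun n => ?_) (fun n => ?_) h1
  · exact div_nonneg (Nat.cast_nonneg _) (den_pos hε n).le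
  · rw [← add_div]
    refine div_le_div_of_nonneg_right ?_ (den_pos hε n).le
    have h2 : (pls φ n).ncard ≤ (φ n).ncard + 1 := Set.ncard_insert_le _ _
    exact_mod_cast h2

theorem alm_mono {φ ψ : ∀ n, Set ((I n) → Bool)} (h : Inc I φ ψ) : almSet I φ ⊆ almSet I ψ := by
  intro x hx
  have h1 : ∀ᶠ n in atTop, res I x n ∈ φ n := hx
  have h2 : ∀ᶠ n in atTop, φ n ⊆ ψ n := h
  filter_upwards [h1, h2] with n h3 h4
  exact h4 h3

theorem inc_pls (φ : ∀ n, Set ((I n) → Bool)) : Inc I φ (pls φ) :=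
  Eventually.of_forall fun _ => Set.subset_insert _ _

theorem inc_trans {φ ψ χ : ∀ n, Set ((I n) → Bool)} (h : Inc I φ ψ) (h' : Inc I ψ χ) :
    Inc I φ χ := by
  have h1 : ∀ᶠ n in atTop, φ n ⊆ ψ n := h
  have h2 : ∀ᶠ n in atTop, ψ n ⊆ χ n := h'
  filter_upwards [h1, h2] with n h3 h4
  exact h3.trans h4

theorem inc_refl (φ : ∀ n, Set ((I n) → Bool)) : Inc I φ φ :=
  Eventually.of_forall fun _ => Set.Subset.rfl

/-- gluing -/
theorem exists_glue (hI : IsIntPart I) (w : ∀ n, (I n) → Bool) :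
    ∃ x : Cantor, ∀ n, res I x n = w n := by
  choose c hc using hI.cover
  refine ⟨fun k => w (c k) ⟨k, hc k⟩, fun n => ?_⟩
  funext i
  have h1 : c i.1 = n := by
    by_contra hne
    exact Finset.disjoint_left.mp (hI.disj _ _ hne) (hc i.1) i.2
  have h2 : ∀ (m : ℕ) (hm : m = n) (h : i.1 ∈ I m), w m ⟨i.1, h⟩ = w n i := by
    intro m hm h
    subst hm
    rfl
  exact h2 _ h1 (hc i.1)

theorem inc_of_alm (hI : IsIntPart I) {φ ψ : ∀ n, Set ((I n) → Bool)}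
    (hne : ∀ᶠ n in atTop, (φ n).Nonempty) (h : almSet I φ ⊆ almSet I ψ) : Inc I φ ψ := by
  classical
  have hw : ∀ n, ∃ w : (I n) → Bool, ((φ n).Nonempty → w ∈ φ n) ∧ (¬ φ n ⊆ ψ n → w ∉ ψ n) := by
    intro n
    by_cases h1 : φ n ⊆ ψ n
    · by_cases h2 : (φ n).Nonempty
      · obtain ⟨w, hw⟩ := h2
        exact ⟨w, fun _ => hw, fun h3 => absurd h1 h3⟩
      · exact ⟨fun _ => false, fun h3 => absurd h3 h2, fun h3 => absurd h1 h3⟩
    · obtain ⟨w, hw1, hw2⟩ := Set.not_subset.mp h1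
      exact ⟨w, fun _ => hw1, fun _ => hw2⟩
  choose w hw1 hw2 using hw
  obtain ⟨x, hx⟩ := exists_glue hI w
  have h1 : x ∈ almSet I φ := by
    change ∀ᶠ n in atTop, res I x n ∈ φ n
    filter_upwards [hne] with n hn
    rw [hx]
    exact hw1 n hn
  have h2 : ∀ᶠ n in atTop, res I x n ∈ ψ n := h h1
  change ∀ᶠ n in atTop, φ n ⊆ ψ n
  filter_upwards [h2] with n hn
  by_contra hc
  rw [hx] at hn
  exact hw2 n hc hn

theorem inc_of_pls (hI : IsIntPart I) {φ ψ : ∀ n, Set ((I n) → Bool)}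
    (h : almSet I (pls φ) ⊆ almSet I ψ) : Inc I φ ψ :=
  inc_trans (inc_pls φ) (inc_of_alm hI
    (Eventually.of_forall fun _ => ⟨_, Set.mem_insert _ _⟩) h)

theorem alm_ne_univ (hNUL : SpecNUL) (hI : IsIntPart I) (hε : ∀ n, 0 < ε n) (hsum : Summable ε)
    {ψ : ∀ n, Set ((I n) → Bool)} (hψ : Sig I ε ψ) : ∃ x, x ∉ almSet I ψ := by
  by_contra hcon
  push Not at hcon
  have h1 := hNUL I ε hI hε hsum ψ hψ
  have h2 : infSet I ψ = Set.univ := by
    rw [Set.eq_univ_iff_forall]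
    intro x
    have h3 : ∀ᶠ n in atTop, res I x n ∈ ψ n := hcon x
    exact h3.frequently
  have h4 : coinMeas Set.univ = 1 := by
    unfold coinMeas
    exact measure_univ
  rw [h2, h4] at h1
  exact one_ne_zero h1

end SGEM

open SGEM in
/-- **SGE** -/
theorem specSGE (hNUL : SpecNUL) : SpecSGE := by
  intro I ε hI hε hsum hs
  have hEI : ∀ φ : ∀ n, Set ((I n) → Bool), Sig I ε φ → almSet I φ ∈ EI I ε :=
    fun φ hφ => ⟨φ, hφ, Set.Subset.rfl⟩
  -- the four sets of cardinals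
  set PA : Set Cardinal := {κ | ∃ F : Set (Set Cantor), F ⊆ EI I ε ∧ #F = κ ∧ ⋃₀ F ∉ EI I ε}
    with hPA
  set PB : Set Cardinal := {κ | ∃ F : Set (∀ n, Set ((I n) → Bool)), (∀ φ ∈ F, Sig I ε φ) ∧
    #F = κ ∧ ∀ ψ, Sig I ε ψ → ∃ φ ∈ F, ¬ Inc I φ ψ} with hPB
  set PC : Set Cardinal := {κ | ∃ F : Set (Set Cantor), F ⊆ EI I ε ∧ #F = κ ∧
    ∀ A ∈ EI I ε, ∃ B ∈ F, A ⊆ B} with hPC
  set PD : Set Cardinal := {κ | ∃ F : Set (∀ n, Set ((I n) → Bool)), (∀ φ ∈ F, Sig I ε φ) ∧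
    #F = κ ∧ ∀ φ, Sig I ε φ → ∃ ψ ∈ F, Inc I φ ψ} with hPD
  have nA : PA.Nonempty := by
    refine ⟨_, EI I ε, Set.Subset.rfl, rfl, ?_⟩
    rintro ⟨ψ, hψ, hsub⟩
    obtain ⟨x, hx⟩ := alm_ne_univ hNUL hI hε hsum hψ
    exact hx (hsub ⟨{x}, hs x, mem_singleton x⟩)
  have nB : PB.Nonempty := by
    refine ⟨_, {φ | Sig I ε φ}, fun φ hφ => hφ, rfl, fun ψ hψ => ?_⟩
    by_contra hcon
    push Not at hcon
    obtain ⟨x, hx⟩ := alm_ne_univ hNUL hI hε hsum hψ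
    obtain ⟨φ, hφ, hxφ⟩ := hs x
    exact hx (alm_mono (hcon φ hφ) (hxφ (mem_singleton x)))
  have nC : PC.Nonempty := ⟨_, EI I ε, Set.Subset.rfl, rfl, fun A hA => ⟨A, hA, Set.Subset.rfl⟩⟩
  have nD : PD.Nonempty := ⟨_, {φ | Sig I ε φ}, fun φ hφ => hφ, rfl,
    fun φ hφ => ⟨φ, hφ, inc_refl φ⟩⟩
  constructor
  · change sInf PA = sInf PB
    apply le_antisymm
    · obtain ⟨F, hF1, hF2, hF3⟩ := csInf_mem nB
      rw [← hF2]
      have h1 : #((fun φ => almSet I (pls φ)) '' F : Set (Set Cantor)) ∈ PA := by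
        refine ⟨_, ?_, rfl, ?_⟩
        · rintro _ ⟨φ, hφ, rfl⟩
          exact hEI _ (sig_pls hε hs (hF1 φ hφ))
        · rintro ⟨ψ, hψ, hsub⟩
          obtain ⟨φ, hφ, hn⟩ := hF3 ψ hψ
          apply hn
          apply inc_of_pls hI
          intro x hx
          exact hsub ⟨_, ⟨φ, hφ, rfl⟩, hx⟩
      exact (csInf_le' h1).trans Cardinal.mk_image_le
    · obtain ⟨F, hF1, hF2, hF3⟩ := csInf_mem nA
      rw [← hF2]
      have h0 : ∀ A : Set Cantor, ∃ φ : ∀ n, Set ((I n) → Bool), A ∈ F →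
          Sig I ε φ ∧ A ⊆ almSet I φ := by
        intro A
        by_cases hA : A ∈ F
        · obtain ⟨φ, hφ, hsub⟩ := hF1 hA
          exact ⟨φ, fun _ => ⟨hφ, hsub⟩⟩
        · exact ⟨fun _ => ∅, fun h => absurd h hA⟩
      choose c hc using h0
      have h1 : #(c '' F : Set (∀ n, Set ((I n) → Bool))) ∈ PB := by
        refine ⟨_, ?_, rfl, fun ψ hψ => ?_⟩
        · rintro _ ⟨A, hA, rfl⟩
          exact (hc A hA).1
        · by_contra hcon
          push Not at hcon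
          apply hF3
          refine ⟨ψ, hψ, ?_⟩
          rintro x ⟨A, hA, hx⟩
          exact alm_mono (hcon _ ⟨A, hA, rfl⟩) ((hc A hA).2 hx)
      exact (csInf_le' h1).trans Cardinal.mk_image_le
  · change sInf PC = sInf PD
    apply le_antisymm
    · obtain ⟨F, hF1, hF2, hF3⟩ := csInf_mem nD
      rw [← hF2]
      have h1 : #(almSet I '' F : Set (Set Cantor)) ∈ PC := by
        refine ⟨_, ?_, rfl, ?_⟩
        · rintro _ ⟨φ, hφ, rfl⟩
          exact hEI _ (hF1 φ hφ)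
        · rintro A ⟨φ, hφ, hA⟩
          obtain ⟨ψ, hψ, hinc⟩ := hF3 φ hφ
          exact ⟨_, ⟨ψ, hψ, rfl⟩, hA.trans (alm_mono hinc)⟩
      exact (csInf_le' h1).trans Cardinal.mk_image_le
    · obtain ⟨F, hF1, hF2, hF3⟩ := csInf_mem nC
      rw [← hF2]
      have h0 : ∀ A : Set Cantor, ∃ φ : ∀ n, Set ((I n) → Bool), A ∈ F →
          Sig I ε φ ∧ A ⊆ almSet I φ := by
        intro A
        by_cases hA : A ∈ F
        · obtain ⟨φ, hφ, hsub⟩ := hF1 hA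
          exact ⟨φ, fun _ => ⟨hφ, hsub⟩⟩
        · exact ⟨fun _ => ∅, fun h => absurd h hA⟩
      choose c hc using h0
      have h1 : #(c '' F : Set (∀ n, Set ((I n) → Bool))) ∈ PD := by
        refine ⟨_, ?_, rfl, fun φ hφ => ?_⟩
        · rintro _ ⟨A, hA, rfl⟩
          exact (hc A hA).1
        · obtain ⟨B, hB, hsub⟩ := hF3 _ (hEI _ (sig_pls hε hs hφ))
          exact ⟨_, ⟨B, hB, rfl⟩, inc_of_pls hI (hsub.trans (hc B hB).2)⟩
      exact (csInf_le' h1).trans Cardinal.mk_image_le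

end Pool.Agent.Lib.MP2148a5
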