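import Pool.Agent.Lib.MP_2148a5_lc.LZ.Spec

/-!
# MP_2148a5_lc, module SGS: `add(S)` and `cof(S)` are the bounding and the dominating number of `Σ_{I,ε}`
-/

set_option autoImplicit false

namespace Pool.Agent.Lib.MP2148a5

open Set Filter Topology MeasureTheory Cardinal

namespace SGSM

theorem infSet_mono {I : ℕ → Finset ℕ} {φ ψ : ∀ n, Set ((I n) → Bool)} (h : Inc I φ ψ) :
    infSet I φ ⊆ infSet I ψ := by
  intro x hx
  have hx' : ∃ᶠ n in atTop, res I x n ∈ φ n := hx
  have h' : ∀ᶠ n in atTop, φ n ⊆ ψ n := h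
  exact (hx'.and_eventually h').mono fun n hn => hn.2 hn.1

theorem univ_not_null : (Set.univ : Set Cantor) ∉ NN := by
  intro h
  have h1 : coinMeas (Set.univ : Set Cantor) = 0 := h
  have h2 : coinMeas (Set.univ : Set Cantor) = 1 := by
    unfold coinMeas
    exact measure_univ
  rw [h2] at h1
  exact one_ne_zero h1

end SGSM

open SGSM in
theorem specSGS (hINC : SpecINC) (hNUL : SpecNUL) : SpecSGS := by
  intro I ε hI hε hs hsing
  -- a set which contains every `infSet φ` is not in the ideal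
  have hbad : ∀ ψ, Sig I ε ψ → ¬ ∀ φ, Sig I ε φ → infSet I φ ⊆ infSet I ψ := by
    intro ψ hψ h
    have h1 : infSet I ψ = Set.univ := by
      refine Set.eq_univ_of_forall fun x => ?_
      obtain ⟨φ, hφ, hx⟩ := hsing x
      exact h φ hφ (hx rfl)
    apply univ_not_null
    rw [← h1]
    exact hNUL I ε hI hε hs ψ hψ
  have hmem : ∀ φ, Sig I ε φ → infSet I φ ∈ SI I ε := fun φ hφ => ⟨φ, hφ, Subset.rfl⟩
  have hbig : ⋃₀ (SI I ε) ∉ SI I ε := by
    rintro ⟨ψ, hψ, h⟩
    exact hbad ψ hψ fun φ hφ => (Set.subset_sUnion_of_mem (hmem φ hφ)).trans h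
  have hch : ∀ A : Set Cantor, ∃ φ : ∀ n, Set ((I n) → Bool),
      A ∈ SI I ε → Sig I ε φ ∧ A ⊆ infSet I φ := by
    intro A
    by_cases hA : A ∈ SI I ε
    · obtain ⟨φ, h1, h2⟩ := hA
      exact ⟨φ, fun _ => ⟨h1, h2⟩⟩
    · exact ⟨fun _ => ∅, fun h => absurd h hA⟩
  choose c hc using hch
  constructor
  · apply le_antisymm
    · refine le_csInf ?_ ?_
      · refine ⟨_, {φ | Sig I ε φ}, fun φ hφ => hφ, rfl, fun ψ hψ => ?_⟩
        by_contra hcon
        push Not at hcon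
        exact hbad ψ hψ fun φ hφ => infSet_mono (hcon φ hφ)
      · rintro κ ⟨F, hF, rfl, hunb⟩
        have h1 : #(infSet I '' F) ≤ #F := Cardinal.mk_image_le
        refine le_trans (csInf_le' ⟨infSet I '' F, ?_, rfl, ?_⟩) h1
        · rintro _ ⟨φ, hφ, rfl⟩
          exact hmem φ (hF φ hφ)
        · rintro ⟨ψ, hψ, h⟩
          obtain ⟨φ, hφ, hn⟩ := hunb ψ hψ
          apply hn
          exact hINC I ε hI hε hs φ ψ hψ
            ((Set.subset_sUnion_of_mem (Set.mem_image_of_mem _ hφ)).trans h)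
    · refine le_csInf ?_ ?_
      · exact ⟨_, SI I ε, Subset.rfl, rfl, hbig⟩
      · rintro κ ⟨F, hF, rfl, hn⟩
        have h1 : #(c '' F) ≤ #F := Cardinal.mk_image_le
        refine le_trans (csInf_le' ⟨c '' F, ?_, rfl, fun ψ hψ => ?_⟩) h1
        · rintro _ ⟨A, hA, rfl⟩
          exact (hc A (hF hA)).1
        · by_contra hcon
          push Not at hcon
          apply hn
          refine ⟨ψ, hψ, Set.sUnion_subset fun A hA => ?_⟩
          exact (hc A (hF hA)).2.trans (infSet_mono (hcon (c A) (Set.mem_image_of_mem c hA)))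
  · apply le_antisymm
    · refine le_csInf ?_ ?_
      · exact ⟨_, {φ | Sig I ε φ}, fun φ hφ => hφ, rfl,
          fun φ hφ => ⟨φ, hφ, Filter.Eventually.of_forall fun n => Subset.rfl⟩⟩
      · rintro κ ⟨F, hF, rfl, hdom⟩
        have h1 : #(infSet I '' F) ≤ #F := Cardinal.mk_image_le
        refine le_trans (csInf_le' ⟨infSet I '' F, ?_, rfl, ?_⟩) h1
        · rintro _ ⟨φ, hφ, rfl⟩
          exact hmem φ (hF φ hφ)
        · rintro A ⟨φ, hφ, hA⟩
          obtain ⟨ψ, hψ, hi⟩ := hdom φ hφ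
          exact ⟨infSet I ψ, Set.mem_image_of_mem _ hψ, hA.trans (infSet_mono hi)⟩
    · refine le_csInf ?_ ?_
      · exact ⟨_, SI I ε, Subset.rfl, rfl, fun A hA => ⟨A, hA, Subset.rfl⟩⟩
      · rintro κ ⟨F, hF, rfl, hcof⟩
        have h1 : #(c '' F) ≤ #F := Cardinal.mk_image_le
        refine le_trans (csInf_le' ⟨c '' F, ?_, rfl, fun φ hφ => ?_⟩) h1
        · rintro _ ⟨A, hA, rfl⟩
          exact (hc A (hF hA)).1
        · obtain ⟨A, hA, hφA⟩ := hcof _ (hmem φ hφ)
          refine ⟨c A, Set.mem_image_of_mem c hA, ?_⟩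
          exact hINC I ε hI hε hs φ (c A) (hc A (hF hA)).1 (hφA.trans (hc A (hF hA)).2)

end Pool.Agent.Lib.MP2148a5
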