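import Pool.Agent.Lib.MP_2148a5_lc.LZ.Spec

/-!
# MP_2148a5_lc, module SIN: singletons and unboundedness
-/

set_option autoImplicit false

namespace Pool.Agent.Lib.MP2148a5

open Set Filter Topology MeasureTheory Cardinal

theorem specSIN : SpecSIN := by
  intro I ε hε
  constructor
  · intro h C
    obtain ⟨φ, hφ, hx⟩ := h (fun _ => false)
    have h1 : ∃ᶠ n in atTop, res I (fun _ => false) n ∈ φ n := hx (mem_singleton _)
    have hC : 0 < 1 / (|C| + 1) := by positivity
    have h2 : ∀ᶠ n in atTop, ((φ n).ncard : ℝ) / (2 ^ (I n).card * ε n) < 1 / (|C| + 1) :=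
      hφ.eventually_lt_const hC
    refine (h1.and_eventually h2).mono ?_
    rintro n ⟨hn1, hn2⟩
    have hpos : (0 : ℝ) < 2 ^ (I n).card * ε n := mul_pos (by positivity) (hε n)
    have hcard : (1 : ℝ) ≤ ((φ n).ncard : ℝ) := by
      have h3 : 0 < (φ n).ncard := (Set.ncard_pos (Set.toFinite _)).mpr ⟨_, hn1⟩
      exact_mod_cast h3
    rw [div_lt_div_iff₀ hpos (by positivity)] at hn2
    have h4 : |C| + 1 ≤ ((φ n).ncard : ℝ) * (|C| + 1) := by
      nlinarith [abs_nonneg C]
    have h5 := le_abs_self C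
    linarith
  · rintro X ⟨φ, hφ, hX⟩
    refine ⟨φ, hφ, hX.trans ?_⟩
    intro x hx
    exact Filter.Eventually.frequently hx

end Pool.Agent.Lib.MP2148a5
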