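import Pool.Agent.Lib.MP_2148a5_lc.LZ.Spec
import Pool.Agent.Lib.MP_2148a5_lc.CAR

/-!
# MP_2148a5_lc, module STR: `add(N) = min(b, min non(E_{I,ε}))`, `cof(N) = max(d, sup cov(E_{I,ε}))`
-/

set_option autoImplicit false

namespace Pool.Agent.Lib.MP2148a5

open Set Filter Topology MeasureTheory Cardinal

/-- the pairs `(I, ε)` of the problem for which `E_{I,ε}` contains all singletons -/
structure Good (I : ℕ → Finset ℕ) (ε : ℕ → ℝ) : Prop where
  part : IsIntPart I
  pos : ∀ n, 0 < ε n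
  sum : Summable ε
  sing : ∀ x : Cantor, {x} ∈ EI I ε

/-- the least `non(E_{I,ε})` over all `(I, ε)` -/
noncomputable def minNonE : Cardinal := sInf {κ | ∃ I ε, Good I ε ∧ nonC (EI I ε) = κ}

/-- the supremum of `cov(E_{I,ε})` over all `(I, ε)` -/
noncomputable def supCovE : Cardinal := sSup {κ | ∃ I ε, Good I ε ∧ covC (EI I ε) = κ}

namespace STRM

/-- endpoints of the intervals -/
def ep (l : ℕ → ℕ) (n : ℕ) : ℕ := ∑ i ∈ Finset.range n, (l i + 1)

theorem ep_succ (l : ℕ → ℕ) (n : ℕ) : ep l (n + 1) = ep l n + (l n + 1) := by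
  rw [ep, Finset.sum_range_succ]
  rfl

theorem ep_mono (l : ℕ → ℕ) : StrictMono (ep l) :=
  strictMono_nat_of_lt_succ fun n => by rw [ep_succ]; omega

theorem part (l : ℕ → ℕ) : IsIntPart fun n => Finset.Ico (ep l n) (ep l (n + 1)) where
  ne n := Finset.nonempty_Ico.2 (ep_mono l (Nat.lt_succ_self n))
  conn n i hi j hj k hik hkj := by
    rw [Finset.mem_Ico] at hi hj ⊢
    omega
  disj m n hmn := by
    rw [Finset.disjoint_left]
    intro i hi hi'
    rw [Finset.mem_Ico] at hi hi'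
    rcases lt_or_gt_of_ne hmn with h | h
    · have := (ep_mono l).monotone (Nat.succ_le_of_lt h)
      simp only [Nat.succ_eq_add_one] at this
      omega
    · have := (ep_mono l).monotone (Nat.succ_le_of_lt h)
      simp only [Nat.succ_eq_add_one] at this
      omega
  cover k := by
    have h0 : ep l 0 ≤ k := by simp [ep]
    have h1 : k < ep l (k + 1) := lt_of_lt_of_le (Nat.lt_succ_self k) (ep_mono l).le_apply
    refine ⟨Nat.findGreatest (fun n => ep l n ≤ k) k, ?_⟩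
    rw [Finset.mem_Ico]
    have h2 : ep l (Nat.findGreatest (fun n => ep l n ≤ k) k) ≤ k :=
      Nat.findGreatest_spec (P := fun n => ep l n ≤ k) (Nat.zero_le _) h0
    refine ⟨h2, ?_⟩
    by_contra h3
    push Not at h3
    have h4 : Nat.findGreatest (fun n => ep l n ≤ k) k + 1 ≤ k :=
      le_trans (ep_mono l).le_apply h3
    have h5 := Nat.le_findGreatest (P := fun n => ep l n ≤ k) h4 h3
    omega

theorem card_I (l : ℕ → ℕ) (n : ℕ) : (Finset.Ico (ep l n) (ep l (n + 1))).card = l n + 1 := by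
  rw [Nat.card_Ico, ep_succ]
  omega

theorem exists_code (s : Finset ℕ) (m : ℕ) (h : m < 2 ^ s.card) :
    ∃ w : ℕ → (s → Bool), ∀ y ≤ m, ∀ z ≤ m, w y = w z → y = z := by
  have hc : Fintype.card (s → Bool) = 2 ^ s.card := by simp
  let e : (s → Bool) ≃ Fin (2 ^ s.card) := Fintype.equivFinOfCardEq hc
  refine ⟨fun y => if h : y < 2 ^ s.card then e.symm ⟨y, h⟩ else fun _ => true, ?_⟩
  intro y hy z hz hyz
  have h1 : y < 2 ^ s.card := lt_of_le_of_lt hy h
  have h2 : z < 2 ^ s.card := lt_of_le_of_lt hz h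
  simp only [h1, h2, dif_pos] at hyz
  have := e.symm.injective hyz
  simpa using this

theorem key (b : ℕ → ℕ) : ∃ (I : ℕ → Finset ℕ) (ε : ℕ → ℝ), Good I ε ∧
    ∃ (x : (ℕ → ℕ) → Cantor) (S : (∀ n, Set ((I n) → Bool)) → ℕ → Finset ℕ),
      (∀ φ, Slal (fun n => n) (S φ)) ∧
      ∀ f φ, (∀ᶠ n in atTop, f n ≤ b n) → Sig I ε φ → x f ∈ almSet I φ → Cap f (S φ) := by
  classical
  obtain ⟨l, hl⟩ : ∃ l : ℕ → ℕ, l = fun n => 2 * n + b n := ⟨_, rfl⟩
  obtain ⟨I, hIdef⟩ : ∃ I : ℕ → Finset ℕ, I = fun n => Finset.Ico (ep l n) (ep l (n + 1)) :=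
    ⟨_, rfl⟩
  have hI : IsIntPart I := by rw [hIdef]; exact part l
  have hcard : ∀ n, (I n).card = 2 * n + b n + 1 := by
    intro n
    rw [hIdef]
    have := card_I l n
    rw [this, hl]
  obtain ⟨ε, hεdef⟩ : ∃ ε : ℕ → ℝ, ε = fun n : ℕ => ((n : ℝ) + 1) / 2 ^ (I n).card :=
    ⟨_, rfl⟩
  have hε : ∀ n, 0 < ε n := by
    intro n
    rw [hεdef]
    positivity
  have hh : ∀ n, (2 : ℝ) ^ (I n).card * ε n = (n : ℝ) + 1 := by
    intro n
    rw [hεdef]
    field_simp
  have hsum : Summable ε := by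
    refine Summable.of_nonneg_of_le (fun n => (hε n).le) (fun n => ?_)
      (summable_geometric_of_lt_one (r := (1 / 2 : ℝ)) (by norm_num) (by norm_num))
    have h1 : ((n : ℝ) + 1) ≤ 2 ^ n := by
      have := Nat.lt_two_pow_self (n := n)
      exact_mod_cast this
    rw [hεdef]
    show ((n : ℝ) + 1) / 2 ^ (I n).card ≤ (1 / 2) ^ n
    rw [div_le_iff₀ (by positivity), hcard n, one_div, inv_pow, ← div_eq_inv_mul,
      le_div_iff₀ (by positivity)]
    calc ((n : ℝ) + 1) * 2 ^ n ≤ 2 ^ n * 2 ^ n := mul_le_mul_of_nonneg_right h1 (by positivity)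
      _ = 2 ^ (2 * n) := by rw [← pow_add]; congr 1; omega
      _ ≤ 2 ^ (2 * n + b n + 1) := pow_le_pow_right₀ (by norm_num) (by omega)
  have hsing : ∀ x : Cantor, {x} ∈ EI I ε := by
    intro x
    refine ⟨fun n => {res I x n}, ?_, ?_⟩
    · unfold Sig
      simp only [hh, Set.ncard_singleton, Nat.cast_one]
      exact tendsto_one_div_add_atTop_nhds_zero_nat
    · rintro y rfl
      exact Eventually.of_forall fun n => rfl
  have hcode : ∀ n, ∃ w : ℕ → ((I n) → Bool), ∀ y ≤ b n, ∀ z ≤ b n, w y = w z → y = z := by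
    intro n
    refine exists_code (I n) (b n) ?_
    rw [hcard n]
    exact lt_of_lt_of_le (Nat.lt_two_pow_self (n := b n))
      (Nat.pow_le_pow_right (by norm_num) (by omega))
  choose w hw using hcode
  have hx : ∀ f : ℕ → ℕ, ∃ x : Cantor, ∀ n, res I x n = w n (f n) :=
    fun f => INCM.glue I hI fun n => w n (f n)
  choose x hx using hx
  refine ⟨I, ε, ⟨hI, hε, hsum, hsing⟩, x, fun φ n =>
    if (φ n).ncard ≤ n then (Finset.range (b n + 1)).filter fun y => w n y ∈ φ n else ∅, ?_, ?_⟩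
  · intro φ n
    show (if (φ n).ncard ≤ n then (Finset.range (b n + 1)).filter fun y => w n y ∈ φ n
      else ∅).card ≤ n
    split_ifs with h
    · refine le_trans ?_ h
      have h1 : (((Finset.range (b n + 1)).filter fun y => w n y ∈ φ n) : Set ℕ).ncard ≤
          (φ n).ncard := by
        refine Set.ncard_le_ncard_of_injOn (w n) ?_ ?_ (Set.toFinite _)
        · intro y hy
          rw [Finset.mem_coe, Finset.mem_filter] at hy
          exact hy.2
        · intro y hy z hz hyz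
          rw [Finset.mem_coe, Finset.mem_filter, Finset.mem_range] at hy hz
          exact hw n y (by omega) z (by omega) hyz
      rwa [Set.ncard_coe_finset] at h1
    · simp
  · intro f φ hf hφ hxf
    have h1 : ∀ᶠ n in atTop, (φ n).ncard ≤ n := by
      have h2 : ∀ᶠ n in atTop, ((φ n).ncard : ℝ) / (2 ^ (I n).card * ε n) < 1 :=
        hφ.eventually_lt_const one_pos
      filter_upwards [h2] with n hn
      rw [hh n, div_lt_one (by positivity)] at hn
      have h3 : (φ n).ncard < n + 1 := by exact_mod_cast hn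
      omega
    have hxf' : ∀ᶠ n in atTop, res I (x f) n ∈ φ n := hxf
    show ∀ᶠ n in atTop, f n ∈ (if (φ n).ncard ≤ n then
      (Finset.range (b n + 1)).filter fun y => w n y ∈ φ n else ∅)
    filter_upwards [hf, hxf', h1] with n hn hn' hn''
    rw [if_pos hn'', Finset.mem_filter, Finset.mem_range]
    refine ⟨by omega, ?_⟩
    rw [← hx f n]
    exact hn'

theorem EI_null {I : ℕ → Finset ℕ} {ε : ℕ → ℝ} (h : Good I ε) : EI I ε ⊆ NN := by
  rintro X ⟨φ, hφ, hX⟩
  refine measure_mono_null (hX.trans ?_) (specNUL I ε h.part h.pos h.sum φ hφ)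
  intro x hx
  exact Eventually.frequently hx

theorem univ_not_EI {I : ℕ → Finset ℕ} {ε : ℕ → ℝ} (h : Good I ε) : Set.univ ∉ EI I ε :=
  fun h' => CARM.univ_not_null (EI_null h h')

theorem add_le_non {J : Set (Set Cantor)} (hs : ∀ x, {x} ∈ J) (hu : Set.univ ∉ J) :
    addC J ≤ nonC J := by
  refine le_csInf ⟨_, Set.univ, hu, rfl⟩ ?_
  rintro κ ⟨A, hA, rfl⟩
  have h1 : addC J ≤ #((fun x : Cantor => ({x} : Set Cantor)) '' A) := by
    refine csInf_le' ⟨_, ?_, rfl, ?_⟩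
    · rintro _ ⟨x, _, rfl⟩
      exact hs x
    · have h2 : ⋃₀ ((fun x : Cantor => ({x} : Set Cantor)) '' A) = A := by
        ext x
        simp
      rw [h2]
      exact hA
  exact h1.trans Cardinal.mk_image_le

theorem cov_le_cof {J : Set (Set Cantor)} (hs : ∀ x, {x} ∈ J) : covC J ≤ cofC J := by
  refine le_csInf ⟨_, J, Subset.rfl, rfl, fun A hA => ⟨A, hA, Subset.rfl⟩⟩ ?_
  rintro κ ⟨F, hF, hκ, hcof⟩
  refine csInf_le' ⟨F, hF, hκ, Set.eq_univ_of_forall fun x => ?_⟩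
  obtain ⟨B, hB, hB'⟩ := hcof {x} (hs x)
  exact ⟨B, hB, hB' rfl⟩

theorem mem_sup {S : Finset ℕ} {y : ℕ} (h : y ∈ S) : y ≤ S.sup id :=
  Finset.le_sup (f := id) h

end STRM

open STRM in
/-- MODULE STR -/
theorem specSTR (hE : ∀ I ε, Good I ε → addC (EI I ε) = addC NN ∧ cofC (EI I ε) = cofC NN)
    (hNUB : SpecNUB) :
    addC NN = min bNum minNonE ∧ cofC NN = max dNum supCovE := by
  classical
  obtain ⟨hB, hD⟩ := hNUB
  have hgood : ∃ I ε, Good I ε := by
    obtain ⟨I, ε, h, _⟩ := key fun _ => 0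
    exact ⟨I, ε, h⟩
  obtain ⟨I₀, ε₀, hg₀⟩ := hgood
  -- attained infima
  have hloc : {κ : Cardinal | ∃ F : Set (ℕ → ℕ), #F = κ ∧
      ∀ S, Slal (fun n => n) S → ∃ f ∈ F, ¬ Cap f S}.Nonempty := by
    refine ⟨_, Set.univ, rfl, fun S _ => ⟨fun n => (S n).sup id + 1, Set.mem_univ _, fun h => ?_⟩⟩
    obtain ⟨n, hn⟩ := h.exists
    exact absurd (mem_sup hn) (Nat.not_succ_le_self _)
  have hlocD : {κ : Cardinal | ∃ D : Set (ℕ → Finset ℕ), (∀ S ∈ D, Slal (fun n => n) S) ∧ #D = κ ∧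
      ∀ f, ∃ S ∈ D, Cap f S}.Nonempty := by
    refine ⟨_, {S | Slal (fun n => n) S}, fun S hS => hS, rfl, fun f => ?_⟩
    refine ⟨fun n => if n = 0 then ∅ else {f n}, fun n => ?_, ?_⟩
    · show (if n = 0 then (∅ : Finset ℕ) else {f n}).card ≤ n
      split_ifs with h
      · simp
      · simp; omega
    · show ∀ᶠ n in atTop, f n ∈ (if n = 0 then (∅ : Finset ℕ) else {f n})
      filter_upwards [eventually_gt_atTop 0] with n hn
      rw [if_neg (by omega)]
      simp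
  have hb : {κ : Cardinal | ∃ F : Set (ℕ → ℕ), #F = κ ∧
      ∀ g : ℕ → ℕ, ∃ f ∈ F, ¬ ∀ᶠ n in atTop, f n ≤ g n}.Nonempty := by
    refine ⟨_, Set.univ, rfl, fun g => ⟨fun n => g n + 1, Set.mem_univ _, fun h => ?_⟩⟩
    obtain ⟨n, hn⟩ := h.exists
    exact absurd hn (Nat.not_succ_le_self _)
  have hd : {κ : Cardinal | ∃ F : Set (ℕ → ℕ), #F = κ ∧
      ∀ g : ℕ → ℕ, ∃ f ∈ F, ∀ᶠ n in atTop, g n ≤ f n}.Nonempty :=
    ⟨_, Set.univ, rfl, fun g => ⟨g, Set.mem_univ _, Eventually.of_forall fun _ => le_rfl⟩⟩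
  have hmin : {κ : Cardinal | ∃ I ε, Good I ε ∧ nonC (EI I ε) = κ}.Nonempty :=
    ⟨_, I₀, ε₀, hg₀, rfl⟩
  constructor
  · refine le_antisymm (le_min ?_ ?_) ?_
    · -- `locB ≤ b`
      rw [hB]
      obtain ⟨F, hF, hF'⟩ := csInf_mem hb
      refine (csInf_le' ⟨F, hF, fun S _ => ?_⟩ : locB ≤ bNum)
      by_contra hc
      push Not at hc
      obtain ⟨f, hf, hf'⟩ := hF' fun n => (S n).sup id
      exact hf' ((hc f hf).mono fun n hn => mem_sup hn)
    · -- `add(N) ≤ non(E)`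
      refine le_csInf hmin ?_
      rintro κ ⟨I, ε, hg, rfl⟩
      rw [← (hE I ε hg).1]
      exact add_le_non hg.sing (univ_not_EI hg)
    · rw [hB]
      by_contra hc
      rw [not_le, lt_min_iff] at hc
      obtain ⟨hc1, hc2⟩ := hc
      obtain ⟨F, hF, hF'⟩ := csInf_mem hloc
      have hF1 : #F < bNum := by rw [hF]; exact hc1
      have hF2 : #F < minNonE := by rw [hF]; exact hc2
      obtain ⟨g, hg⟩ : ∃ g : ℕ → ℕ, ∀ f ∈ F, ∀ᶠ n in atTop, f n ≤ g n := by
        by_contra hno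
        push Not at hno
        refine absurd hF1 (not_lt.2 (csInf_le' ⟨F, rfl, fun g => ?_⟩))
        obtain ⟨f, hf, hf'⟩ := hno g
        refine ⟨f, hf, fun h => hf' (h.mono fun n hn => ?_)⟩
        exact not_lt.2 hn
      obtain ⟨I, ε, hgd, x, S, hS, hxS⟩ := key g
      have h1 : x '' F ∈ EI I ε := by
        by_contra hno
        have h2 : nonC (EI I ε) ≤ #(x '' F) := csInf_le' ⟨_, hno, rfl⟩
        have h3 : minNonE ≤ nonC (EI I ε) := csInf_le' ⟨I, ε, hgd, rfl⟩
        exact absurd hF2 (not_lt.2 (h3.trans (h2.trans Cardinal.mk_image_le)))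
      obtain ⟨φ, hφ, hsub⟩ := h1
      obtain ⟨f, hf, hf'⟩ := hF' (S φ) (hS φ)
      exact hf' (hxS f φ (hg f hf) hφ (hsub ⟨f, hf, rfl⟩))
  · have hcovle : ∀ I ε, Good I ε → covC (EI I ε) ≤ cofC NN := by
      intro I ε hg
      rw [← (hE I ε hg).2]
      exact cov_le_cof hg.sing
    have hbdd : BddAbove {κ : Cardinal | ∃ I ε, Good I ε ∧ covC (EI I ε) = κ} := by
      refine ⟨cofC NN, ?_⟩
      rintro κ ⟨I, ε, hg, rfl⟩
      exact hcovle I ε hg
    refine le_antisymm ?_ (max_le ?_ ?_)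
    · -- `locD ≤ max d (sup cov E)`
      obtain ⟨D, hDc, hDd⟩ := csInf_mem hd
      have hDc' : #D = dNum := hDc
      choose I ε hgd x S hS hxS using key
      have h1 : ∀ b, ∃ F : Set (Set Cantor), F ⊆ EI (I b) (ε b) ∧
          #F = covC (EI (I b) (ε b)) ∧ ⋃₀ F = Set.univ := by
        intro b
        refine csInf_mem (s := {κ : Cardinal | ∃ F : Set (Set Cantor),
          F ⊆ EI (I b) (ε b) ∧ #F = κ ∧ ⋃₀ F = Set.univ})
          ⟨_, Set.range fun x : Cantor => ({x} : Set Cantor), ?_, rfl, ?_⟩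
        · rintro _ ⟨y, rfl⟩
          exact (hgd b).sing y
        · exact Set.eq_univ_of_forall fun y => ⟨{y}, ⟨y, rfl⟩, rfl⟩
      choose F hF hFc hFu using h1
      have h2 : ∀ (b : ℕ → ℕ) (C : F b), ∃ φ : ∀ n, Set ((I b n) → Bool),
          Sig (I b) (ε b) φ ∧ C.1 ⊆ almSet (I b) φ := fun b C => hF b C.2
      choose φ hφ hφ' using h2
      have h3 : locD ≤ #(⋃ b : D, Set.range fun C : F b.1 => S b.1 (φ b.1 C)) := by
        refine csInf_le' ⟨_, ?_, rfl, ?_⟩
        · intro T hT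
          obtain ⟨b, hb'⟩ := Set.mem_iUnion.1 hT
          obtain ⟨C, rfl⟩ := hb'
          exact hS b.1 _
        · intro f
          obtain ⟨b, hbD, hfb⟩ := hDd f
          have h4 : x b f ∈ ⋃₀ F b := by
            rw [hFu b]
            exact Set.mem_univ _
          obtain ⟨C, hC, hxC⟩ := h4
          refine ⟨S b (φ b ⟨C, hC⟩), Set.mem_iUnion.2 ⟨⟨b, hbD⟩, ⟨⟨C, hC⟩, rfl⟩⟩, ?_⟩
          exact hxS b f _ hfb (hφ b ⟨C, hC⟩) (hφ' b ⟨C, hC⟩ hxC)
      rw [hD]
      refine h3.trans (Cardinal.mk_iUnion_le_sum_mk.trans ?_)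
      have h5 : ∀ b : D, #(Set.range fun C : F b.1 => S b.1 (φ b.1 C)) ≤ max dNum supCovE := by
        intro b
        refine Cardinal.mk_range_le.trans ?_
        rw [hFc b.1]
        exact le_max_of_le_right (le_csSup hbdd ⟨_, _, hgd b.1, rfl⟩)
      refine (Cardinal.sum_le_sum _ _ h5).trans ?_
      rw [Cardinal.sum_const', hDc']
      have h6 : ℵ₀ ≤ dNum := by
        rw [← hDc']
        by_contra hlt
        rw [not_le, Cardinal.lt_aleph0_iff_set_finite] at hlt
        obtain ⟨f, hf, hf'⟩ := hDd fun n => hlt.toFinset.sum (fun f => f n) + 1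
        obtain ⟨n, hn⟩ := hf'.exists
        have h7 : f n ≤ hlt.toFinset.sum fun f => f n :=
          Finset.single_le_sum (f := fun f : ℕ → ℕ => f n) (fun _ _ => Nat.zero_le _)
            (hlt.mem_toFinset.2 hf)
        omega
      have h8 : ℵ₀ ≤ max dNum supCovE := h6.trans (le_max_left _ _)
      calc dNum * max dNum supCovE ≤ max dNum supCovE * max dNum supCovE := by
            gcongr
            exact le_max_left _ _
        _ = max dNum supCovE := Cardinal.mul_eq_self h8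
    · -- `d ≤ locD`
      rw [hD]
      obtain ⟨D, hD1, hD2, hD3⟩ := csInf_mem hlocD
      have h1 : dNum ≤ #((fun (S : ℕ → Finset ℕ) n => (S n).sup id) '' D) := by
        refine csInf_le' ⟨_, rfl, fun g => ?_⟩
        obtain ⟨S, hS, hS'⟩ := hD3 g
        exact ⟨_, ⟨S, hS, rfl⟩, hS'.mono fun n hn => mem_sup hn⟩
      refine h1.trans (Cardinal.mk_image_le.trans ?_)
      rw [hD2]
      exact le_rfl
    · refine csSup_le ⟨_, I₀, ε₀, hg₀, rfl⟩ ?_
      rintro κ ⟨I, ε, hg, rfl⟩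
      exact hcovle I ε hg

end Pool.Agent.Lib.MP2148a5
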