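import Pool.Agent.Lib.MP_2148a5_lc.Spec

/-!
# MP_2148a5_lc, part LZ: `add(S_{I,ε}) = add(E_{I,ε}) = add(N)` (captain: helper83)

THEOREM (ZFC).  For all `I`, `ε` such that `S = S_{I,ε}` contains all singletons: `add(S) = add(N)` and
`cof(S) = cof(N)`.  If `E = E_{I,ε}` contains all singletons: `add(E) = add(N)`, `cof(E) = cof(N)`,
`non(E) ≤ non(M), non(N)` and `cov(M), cov(N) ≤ cov(E)`.

With `cov(N) ≤ cov(S) ≤ non(M)`, `cov(M) ≤ non(S) ≤ non(N)` (the first Spec) the strong form of Q1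
holds in every model of `add(N) < cov(N)`, `non(M) < cov(M)`, `non(N) < cof(N)`.

IDEA.  `sigB`, `sigD` are the bounding and the dominating number of `Σ_{I,ε}` with inclusion modulo
finite, `locB`, `locD` those of localization by slaloms of width `n`.  `add(S) = sigB` (SGS), `add(E) =
sigB` (SGE), `add(N) = locB` (NUB; Bartoszynski, from ESY and HRD) and `sigB = locB` (LOC; from TUK of
the first Spec, COD and REV).  The new point is COD: localization in a product `∏ b(k)` of finite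
sets is reducible to `Σ_{I,ε}`, however slowly `2^|I_n| ε_n` grows: each pair `(k, u)` with ANY
`u : b(k) → k + 1` gets its own coordinate `n`.

All modules are independent: file `Pool/Agent/Lib/MP_2148a5_lc/LZ/XXX.lean`,
`import Pool.Agent.Lib.MP_2148a5_lc.LZ.Spec`, namespace `Pool.Agent.Lib.MP2148a5`,
`theorem specXXX (hYYY : SpecYYY) ... : SpecXXX` (deps in the order of USES), own lemmas in a
namespace `XXXM`.
-/

set_option autoImplicit false

namespace Pool.Agent.Lib.MP2148a5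

open Set Filter Topology MeasureTheory Cardinal

/-- `[φ]_*` -/
def almSet (I : ℕ → Finset ℕ) (φ : ∀ n, Set ((I n) → Bool)) : Set Cantor :=
  {x | ∀ᶠ n in atTop, res I x n ∈ φ n}

/-- the ideal `E_{I,ε}` -/
def EI (I : ℕ → Finset ℕ) (ε : ℕ → ℝ) : Set (Set Cantor) :=
  {X | ∃ φ : ∀ n, Set ((I n) → Bool), Sig I ε φ ∧ X ⊆ almSet I φ}

/-- slaloms of width `w` -/
def Slal (w : ℕ → ℕ) (S : ℕ → Finset ℕ) : Prop := ∀ n, (S n).card ≤ w n

/-- the slalom `S` localizes `f` -/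
def Cap (f : ℕ → ℕ) (S : ℕ → Finset ℕ) : Prop := ∀ᶠ n in atTop, f n ∈ S n

/-- inclusion modulo finite -/
def Inc (I : ℕ → Finset ℕ) (φ ψ : ∀ n, Set ((I n) → Bool)) : Prop := ∀ᶠ n in atTop, φ n ⊆ ψ n

/-- the least size of a family of functions not localized by one slalom of width `n` -/
noncomputable def locB : Cardinal :=
  sInf {κ | ∃ F : Set (ℕ → ℕ), #F = κ ∧ ∀ S, Slal (fun n => n) S → ∃ f ∈ F, ¬ Cap f S}

/-- the least size of a family of slaloms of width `n` localizing all functions -/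
noncomputable def locD : Cardinal :=
  sInf {κ | ∃ D : Set (ℕ → Finset ℕ), (∀ S ∈ D, Slal (fun n => n) S) ∧ #D = κ ∧
    ∀ f, ∃ S ∈ D, Cap f S}

/-- the bounding number of `Σ_{I,ε}` modulo finite -/
noncomputable def sigB (I : ℕ → Finset ℕ) (ε : ℕ → ℝ) : Cardinal :=
  sInf {κ | ∃ F : Set (∀ n, Set ((I n) → Bool)), (∀ φ ∈ F, Sig I ε φ) ∧ #F = κ ∧
    ∀ ψ, Sig I ε ψ → ∃ φ ∈ F, ¬ Inc I φ ψ}

/-- the dominating number of `Σ_{I,ε}` modulo finite -/
noncomputable def sigD (I : ℕ → Finset ℕ) (ε : ℕ → ℝ) : Cardinal :=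
  sInf {κ | ∃ F : Set (∀ n, Set ((I n) → Bool)), (∀ φ ∈ F, Sig I ε φ) ∧ #F = κ ∧
    ∀ φ, Sig I ε φ → ∃ ψ ∈ F, Inc I φ ψ}

/-- `2^|I_n| ε_n` is unbounded -/
def Unb (I : ℕ → Finset ℕ) (ε : ℕ → ℝ) : Prop := ∀ C : ℝ, ∃ᶠ n in atTop, C ≤ 2 ^ (I n).card * ε n

/-- MODULE COD (180 lines), the new point.
PROOF.  `h n = 2^|I n| ε n`.  Let `T = Σ k, (Fin (b k + 1) → Fin (k + 1))`, countable and infinite, `e : ℕ ≃ T`
a bijection (`nonempty_equiv_of_countable`), `k_j = (e j).1`, `u_j = (e j).2`.  As `Unb` and `ε → 0`, for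
every `j` there are infinitely many `n` with `(k_j + 1)^2 ≤ h n` and `ε n ≤ 1/4`; by
`extraction_forall_of_frequently` there is a strictly increasing `ν` such that this holds for `n = ν j`,
all `j`.  Put `a_j = ⌊h (ν j) / (k_j + 1)⌋ + 1`.  Then `h (ν j) < (k_j + 1) a_j ≤ h (ν j) + k_j + 1
≤ 2 h (ν j) ≤ 2^|I (ν j)| / 2`.  Fix a bijection `E_n : (I n → Bool) ≃ Fin (2^|I n|)` and, for a word `w` on
`I (ν j)`, let `idx_j(w) = (E w) / a_j` (division of natural numbers).  Each set `{w | idx_j w = i}`,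
`i ≤ k_j`, has `≤ a_j` elements and `{w | idx_j w ≤ k_j}` has exactly `(k_j + 1) a_j > h (ν j)` elements.
`Φ f n = {w | idx_j w = u_j (min (f k_j) (b k_j))}` for `n = ν j` and `∅` for `n ∉ range ν`.
`Sig (Φ f)`: for `n = ν j` the quotient is `≤ a_j / h (ν j) ≤ 1/(k_j + 1) + 1/h (ν j) ≤ 2/(k_j + 1)`, and
`k_j → ∞` for `j → ∞` since every value is taken finitely often (`T` has finite fibres).
`S ψ k` = the set `Y` of the `y ≤ b k` such that for every `u : Fin (b k + 1) → Fin (k + 1)`, with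
`j = e.symm ⟨k, u⟩`, `{w | idx_j w = u y} ⊆ ψ (ν j)`, if `Y` has at most `k` elements, and `∅` otherwise.
(1) If `Sig ψ` then `|Y| ≤ k` for almost all `k`: there is `N` with `|ψ n| ≤ h n` for `n ≥ N`; for large `k` all
`j` with `k_j = k` satisfy `ν j ≥ N`.  If `|Y| ≥ k + 1` there is a `u` mapping `Y` ONTO `Fin (k + 1)`; so for
`j = e.symm ⟨k, u⟩`: `{w | idx_j w ≤ k} ⊆ ψ (ν j)` and `|ψ (ν j)| ≥ (k + 1) a_j > h (ν j)`, a contradiction.
(2) If `f k ≤ b k` and `Φ f n ⊆ ψ n` for almost all `k`, `n` then `f k ∈ Y` for almost all `k`. -/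
def SpecCOD : Prop := ∀ (I : ℕ → Finset ℕ) (ε : ℕ → ℝ), IsIntPart I → (∀ n, 0 < ε n) → Summable ε →
  Unb I ε → ∀ b : ℕ → ℕ,
  ∃ (Φ : (ℕ → ℕ) → ∀ n, Set ((I n) → Bool)) (S : (∀ n, Set ((I n) → Bool)) → ℕ → Finset ℕ),
    (∀ f, Sig I ε (Φ f)) ∧ (∀ ψ, Slal (fun n => n) (S ψ)) ∧
    ∀ f ψ, (∀ᶠ n in atTop, f n ≤ b n) → Sig I ε ψ → Inc I (Φ f) ψ → Cap f (S ψ)

/-- MODULE REV (160 lines).
PROOF.  `h n = 2^|I n| ε n`.  For `φ` with `Sig φ` let `r_φ : ℕ → ℕ` be strictly increasing with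
`|φ n| (m + 1)^3 ≤ h n` for all `n ≥ r_φ m`.  `T = Σ r, (∀ n : Fin r, Set (I n → Bool))` is countable; let
`c : T → ℕ` be injective.  `X φ m = c ⟨r_φ (m + 1), φ restricted to n < r_φ (m + 1)⟩`.
`Ψ S n` = the set of the `w` such that there are `m` and `⟨r, s⟩ ∈ T` with `c ⟨r, s⟩ ∈ S m`, `n < r`,
`w ∈ s n` and `|s n| (m + 1)^3 ≤ h n`.
`Sig (Ψ S)` if `Slal S`: for fixed `n` and `m` these `w` form a set `Z_m` with at most
`m · h n / (m + 1)^3 ≤ h n / (m + 1)^2` elements, empty if `(m + 1)^3 > h n` (then `s n` is empty).  For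
fixed `m` the `r` are bounded (`S m` is finite, `c` injective), so `Z_m = ∅` for large `n`.  So given `M ≥ 1`,
for large `n`: `|Ψ S n| ≤ ∑_(m ≥ M) h n / (m + 1)^2 ≤ h n / M` (a finite telescoping sum).
If `X φ m ∈ S m` for `m ≥ m0` and `n ≥ r_φ m0`, let `m ≥ m0` be the largest with `r_φ m ≤ n`; then
`n < r_φ (m + 1)` and `|φ n| (m + 1)^3 ≤ h n`, so `φ n ⊆ Ψ S n`. -/
def SpecREV : Prop := ∀ (I : ℕ → Finset ℕ) (ε : ℕ → ℝ), (∀ n, 0 < ε n) →
  ∃ (X : (∀ n, Set ((I n) → Bool)) → ℕ → ℕ) (Ψ : (ℕ → Finset ℕ) → ∀ n, Set ((I n) → Bool)),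
    (∀ S, Slal (fun n => n) S → Sig I ε (Ψ S)) ∧
    ∀ φ S, Sig I ε φ → Slal (fun n => n) S → Cap (X φ) S → Inc I φ (Ψ S)

/-- MODULE ESY (150 lines), the easy half of Bartoszynski's theorem.
PROOF.  `C = Clopens Cantor` is countable (`TopologicalSpace.Clopens.countable_iff_secondCountable`);
let `c : C → ℕ` be injective.  `H S = {x | ∃ᶠ n, ∃ D : C, c D ∈ S n ∧ coinMeas D ≤ 4⁻¹ ^ n ∧ x ∈ D}`: the
measure of the `n`-th set is `≤ n 4^-n`, so `H S` is null by `measure_setOfPred_frequently_eq_zero`.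
Let `A` be null.  For `k : ℕ` there is an open `U_k ⊇ A` of measure `≤ 2^-k` (`Set.exists_isOpen_lt_of_lt`),
which is a union of clopen sets `B_(k,i)`, `i : ℕ` (countable clopen basis; if `U_k` is empty all
`B_(k,i) = ∅`); replacing `B_(k,i)` by `B_(k,i) \ ⋃_(i' < i) B_(k,i')` (or by `disjointed`) we may assume
that they are disjoint, so `∑_i coinMeas B_(k,i) ≤ 2^-k`.  Let `E_j = B_(unpair j)`; the sum of all
`coinMeas E_j` is finite, and every `x ∈ A` is in infinitely many `E_j` (one for each `k`).  So there is a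
strictly increasing `t` with `∑_(j ≥ t n) coinMeas E_j ≤ 4^-n`; `X A n = c (⋃_(t n ≤ j < t (n+1)) E_j)`.
If `X A n ∈ S n` for almost all `n` then `A ⊆ H S`. -/
def SpecESY : Prop :=
  ∃ (X : Set Cantor → ℕ → ℕ) (H : (ℕ → Finset ℕ) → Set Cantor),
    (∀ S, Slal (fun n => n) S → coinMeas (H S) = 0) ∧
    ∀ A S, coinMeas A = 0 → Slal (fun n => n) S → Cap (X A) S → A ⊆ H S

/-- MODULE IND (110 lines).  Independent open sets.
PROOF.  `U n i = {x | ∀ l < n, x (Nat.pair i l) = false}` for fixed `n`: the coordinate sets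
`{Nat.pair i l | l < n}` are disjoint for different `i`.  `U n i` is a cylinder of measure `2^-n`
(`Measure.infinitePi_pi` or `Measure.infinitePi_cylinder`), clopen.  The coordinates are independent
(`ProbabilityTheory.iIndepFun_infinitePi`), so the events `(U n i)ᶜ`, `i ∈ s`, are independent
(`iIndepFun.finsets_comp`), and the measure of the intersection is `(1 - 2^-n)^|s|`. -/
def SpecIND : Prop := ∃ U : ℕ → ℕ → Set Cantor,
  (∀ n i, IsOpen (U n i) ∧ coinMeas (U n i) ≤ (2⁻¹ : ENNReal) ^ n) ∧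
  ∀ (n : ℕ) (s : Finset ℕ), (coinMeas (⋂ i ∈ s, (U n i)ᶜ)).toReal ≤ (1 - (2⁻¹ : ℝ) ^ n) ^ s.card

/-- MODULE CPT (80 lines).  A compact set of positive portions outside a null set.
PROOF.  The complement of `toMeasurable coinMeas A` is measurable of measure one; by inner regularity
it contains a compact `K₀` of positive measure.  `K = K₀ \ ⋃ {O in the countable basis :
coinMeas (K₀ ∩ O) = 0}` is closed and `coinMeas (K₀ \ K) = 0`.  If `O` is open and meets `K` in `x` take a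
basic `O' ∋ x` with `O' ⊆ O`; then `coinMeas (K₀ ∩ O') ≠ 0` as `x ∈ K`, and it equals `coinMeas (K ∩ O')`. -/
def SpecCPT : Prop := ∀ A : Set Cantor, coinMeas A = 0 → ∃ K : Set Cantor, IsCompact K ∧ K.Nonempty ∧
  Disjoint K A ∧ ∀ O : Set Cantor, IsOpen O → (K ∩ O).Nonempty → coinMeas (K ∩ O) ≠ 0

/-- MODULE WID (80 lines).  The width of the slaloms is irrelevant.
PROOF.  Let `t : ℕ → ℕ` be strictly increasing with `t m ≥ w (m + 1)` for all `m`.  `X f m` = the code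
(`Encodable.encode` of a list) of `(f 0, ..., f (t m))` (all values up to `t m`).  `D S n` for `n` with
`t m < n ≤ t (m + 1)`: the set of the `n`-th entries of the lists of length `t (m + 1) + 1` coded in
`S (m + 1)`: at most `w (m + 1) ≤ t m ≤ n` of them; `D S n = ∅` for `n ≤ t 0`. -/
def SpecWID : Prop := ∀ w : ℕ → ℕ, ∃ (X : (ℕ → ℕ) → ℕ → ℕ) (D : (ℕ → Finset ℕ) → ℕ → Finset ℕ),
  (∀ S, Slal w S → Slal (fun n => n) (D S)) ∧ ∀ f S, Slal w S → Cap (X f) S → Cap f (D S)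

/-- MODULE HRD (170 lines).  USES `SpecIND`, `SpecCPT`.  The hard half of Bartoszynski's theorem, for
slaloms of some width `w`.
PROOF.  `U` from `SpecIND`, `G f = {x | ∃ᶠ n, x ∈ U n (f n)}`, null by Borel-Cantelli.  For a null set `A`
let `K` be as in `SpecCPT` and `O_j`, `j : ℕ`, an enumeration of a countable basis.  For `j` with `K ∩ O_j`
nonempty let `c_j = coinMeas (K ∩ O_j) > 0` and `A_(j,n) = {i | K ∩ O_j ∩ U n i = ∅}`.  For a finite
`s ⊆ A_(j,n)`: `K ∩ O_j ⊆ ⋂_(i ∈ s) (U n i)ᶜ`, so `c_j ≤ (1 - 2^-n)^|s| ≤ exp (- 2^-n |s|)` and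
`|s| ≤ 2^n log(1/c_j)`.  So there is `N_j` such that for `n ≥ N_j` the set `A_(j,n)` is finite with at most
`n 2^n` elements.  `S A n` = the union of the `A_(j,n)` over all `j ≤ n` with `N_j ≤ n` (and
`K ∩ O_j ≠ ∅`): at most `w n = (n + 1) n 2^n` elements.
If `G f ⊆ A` then `K ∩ G f = ∅`, `K ∩ ⋂_m ⋃_(n ≥ m) U n (f n) = ∅`; by the Baire category theorem in the
compact space `K` (`dense_iInter_of_isOpen`) there is `m` such that `⋃_(n ≥ m) U n (f n)` is not dense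
in `K`: there is a basic `O_j` with `K ∩ O_j ≠ ∅` and `K ∩ O_j ∩ U n (f n) = ∅` for all `n ≥ m`.  So
`f n ∈ A_(j,n) ⊆ S A n` for `n ≥ max m j N_j`. -/
def SpecHRD : Prop := ∃ (w : ℕ → ℕ) (G : (ℕ → ℕ) → Set Cantor) (S : Set Cantor → ℕ → Finset ℕ),
  (∀ f, coinMeas (G f) = 0) ∧ (∀ A, Slal w (S A)) ∧
  ∀ f A, coinMeas A = 0 → G f ⊆ A → Cap f (S A)

/-- MODULE NUB (110 lines).  USES `SpecESY`, `SpecHRD`, `SpecWID`.  Bartoszynski's theorem.
PROOF.  (`locB ≤ addC NN`) If `𝒜` is a set of null sets whose union is not null then `{X A | A ∈ 𝒜}` (ESY) is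
not localized by a slalom `S` of width `n`, for otherwise `⋃₀ 𝒜 ⊆ H S`; it has at most `#𝒜` elements
(`Cardinal.mk_image_le`); `NN` itself is such a family, so the infimum `addC NN` is attained
(`csInf_mem`), and `locB` is below by `csInf_le'`.  (`addC NN ≤ locB`) Let `F` be not localized by a
slalom of width `n` (there is one: the set of all functions).  With `X₁`, `D` from `SpecWID w` the set
`{G (X₁ f) | f ∈ F}` has a union which is not null: otherwise with `A` = the union, `Cap (X₁ f) (S A)` for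
all `f ∈ F`, so `Cap f (D (S A))`, a contradiction.  `cofC`, `locD`: a family of slaloms localizing all
functions gives the cofinal family of the `H S` (`locD` is attained: the slaloms `S n = {f n}` for
`n ≥ 1`), a cofinal family `𝒜` of null sets gives the family of the `D (S A)`. -/
def SpecNUB : Prop := addC NN = locB ∧ cofC NN = locD

/-- MODULE LOC (150 lines).  USES `SpecTUK` (first Spec), `SpecCOD`, `SpecREV`.
PROOF.  Let `Φ`, `G` be from `SpecTUK`, `Φ_b`, `S_b` from `SpecCOD` for the bound `b`, `X`, `Ψ` from `SpecREV`.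
(`sigB ≤ locB`) Let `F` attain `locB` (the set of all functions is not localized).  If some `g` satisfies
`∀ f ∈ F, ∀ᶠ n, f n ≤ g n` then `{Φ_g f | f ∈ F}` has no bound `ψ` (else `S_g ψ` localizes `F`); otherwise
`{Φ f | f ∈ F}` has no bound `ψ` (else `g = G ψ` bounds `F`).  (`locB ≤ sigB`) `Σ` itself has no bound `ψ` (else
`G ψ` bounds all functions), so `sigB` is attained by some `F`; `{X φ | φ ∈ F}` is not localized by any
`S`, for otherwise `Ψ S` is a bound.  (`sigD ≤ locD`) If `D` attains `locD` then `{Ψ S | S ∈ D}` is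
dominating.  (`locD ≤ sigD`) Let `D` attain `sigD` (`Σ` itself is dominating).  For `f` there is `ψ ∈ D` with
`Inc (Φ f) ψ`, so `f n ≤ b n` for almost all `n`, `b = G ψ`; then there is `ψ' ∈ D` with `Inc (Φ_b f) ψ'` and
`Cap f (S_b ψ')`.  So the family of the `S_(G ψ) ψ'`, `ψ, ψ' ∈ D`, localizes all functions.  `D` is
infinite (else `1 + ∑_(ψ ∈ D) G ψ n` is not dominated by any `G ψ`), so `#(D × D) = #D`. -/
def SpecLOC : Prop := ∀ (I : ℕ → Finset ℕ) (ε : ℕ → ℝ), IsIntPart I → (∀ n, 0 < ε n) → Summable ε →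
  Unb I ε → sigB I ε = locB ∧ sigD I ε = locD

/-- MODULE SGS (90 lines).  USES `SpecINC` (first Spec), `SpecNUL` (first Spec).
PROOF.  `⋃₀ SI = univ` (singletons) is not in `SI`, as the elements of `SI` are null sets (`SpecNUL`).
(`addC ≤ sigB`) Let `F` be without bound in `Σ`, of size `sigB` (there is such an `F`: `Σ` itself, since a
bound `ψ` of `Σ` gives `univ ⊆ infSet ψ`); the family `{infSet φ | φ ∈ F}` has a union not in `SI`, by
`SpecINC`.  (`sigB ≤ addC`) Let `𝒜 ⊆ SI` attain `addC`; choose `φ_A` with `A ⊆ infSet φ_A`; a bound `ψ` of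
the `φ_A` gives `⋃₀ 𝒜 ⊆ infSet ψ`.  `cofC`, `sigD` in the same way. -/
def SpecSGS : Prop := ∀ (I : ℕ → Finset ℕ) (ε : ℕ → ℝ), IsIntPart I → (∀ n, 0 < ε n) → Summable ε →
  (∀ x : Cantor, {x} ∈ SI I ε) → addC (SI I ε) = sigB I ε ∧ cofC (SI I ε) = sigD I ε

/-- MODULE SGE (150 lines).  USES `SpecNUL` (first Spec).
PROOF.  `{x} ∈ EI`, so `1 ≤ |φ n|` for almost all `n` for some `φ` with `Sig φ`, and `1/(2^|I n| ε n) → 0`.
So for `φ` with `Sig φ` also `φ⁺ n = insert (fun _ => false) (φ n)` satisfies `Sig φ⁺`.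
(1) If `φ n` is nonempty for almost all `n` and `almSet φ ⊆ almSet ψ` then `Inc φ ψ`: otherwise take the
`x` with `x|I_n ∈ φ n \ ψ n` if possible and `x|I_n ∈ φ n` for the other large `n`.
(2) as in SGS with `almSet` and `φ⁺` in place of `φ`: `F⁺ = {φ⁺ | φ ∈ F}`. -/
def SpecSGE : Prop := ∀ (I : ℕ → Finset ℕ) (ε : ℕ → ℝ), IsIntPart I → (∀ n, 0 < ε n) → Summable ε →
  (∀ x : Cantor, {x} ∈ EI I ε) → addC (EI I ε) = sigB I ε ∧ cofC (EI I ε) = sigD I ε

/-- MODULE ECM (80 lines).  USES `SpecNUL`, `SpecRES` (first Spec).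
PROOF.  `almSet φ ⊆ infSet φ` is null (`SpecNUL`), and `(almSet φ)ᶜ = infSet φᶜ` (`φᶜ n = (φ n)ᶜ`) is
residual by `SpecRES`, as `φ n` is not everything for large `n` (`|φ n| ≤ 2^|I n| ε n < 2^|I n|`).  So
`EI ⊆ NN`, `EI ⊆ MM`.  The covering numbers are attained (`EI` is a cover, by the singletons) and the
uniformity numbers too (`univ` is not null, not meager). -/
def SpecECM : Prop := ∀ (I : ℕ → Finset ℕ) (ε : ℕ → ℝ), IsIntPart I → (∀ n, 0 < ε n) → Summable ε →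
  (∀ x : Cantor, {x} ∈ EI I ε) →
  covC NN ≤ covC (EI I ε) ∧ covC MM ≤ covC (EI I ε) ∧
    nonC (EI I ε) ≤ nonC NN ∧ nonC (EI I ε) ≤ nonC MM

/-- MODULE SIN (60 lines).
PROOF.  `{x} ⊆ infSet φ`: `1 ≤ |φ n|` for infinitely many `n` and `|φ n| / (2^|I n| ε n) → 0`.  The second:
`almSet φ ⊆ infSet φ`. -/
def SpecSIN : Prop := ∀ (I : ℕ → Finset ℕ) (ε : ℕ → ℝ), (∀ n, 0 < ε n) →
  ((∀ x : Cantor, {x} ∈ SI I ε) → Unb I ε) ∧ EI I ε ⊆ SI I ε

/-- MODULE FIN (60 lines, helper83).  USES `SpecCAR` (first Spec), `SpecNUB`, `SpecLOC`, `SpecSGS`,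
`SpecSGE`, `SpecECM`, `SpecSIN`. -/
def SpecFIN : Prop := ∀ (I : ℕ → Finset ℕ) (ε : ℕ → ℝ), IsIntPart I → (∀ n, 0 < ε n) → Summable ε →
  ((∀ x : Cantor, {x} ∈ SI I ε) →
    (addC (SI I ε) = addC NN ∧ cofC (SI I ε) = cofC NN) ∧
    (covC NN ≤ covC (SI I ε) ∧ covC (SI I ε) ≤ nonC MM) ∧
    (covC MM ≤ nonC (SI I ε) ∧ nonC (SI I ε) ≤ nonC NN)) ∧
  ((∀ x : Cantor, {x} ∈ EI I ε) →
    (addC (EI I ε) = addC NN ∧ cofC (EI I ε) = cofC NN) ∧
    (covC NN ≤ covC (EI I ε) ∧ covC MM ≤ covC (EI I ε)) ∧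
    (nonC (EI I ε) ≤ nonC NN ∧ nonC (EI I ε) ≤ nonC MM))

end Pool.Agent.Lib.MP2148a5
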