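import Pool.Agent.Lib.MP_2148a5_lc.LZ.Spec

/-!
# MP_2148a5_lc, part LZ: the width of the slaloms is irrelevant (WID)
-/

set_option autoImplicit false

namespace Pool.Agent.Lib.MP2148a5

open Set Filter Topology MeasureTheory Cardinal

namespace WIDM

/-- the partition points -/
def tt (w : ℕ → ℕ) (m : ℕ) : ℕ := ∑ i ∈ Finset.range (m + 1), (w (i + 1) + 1)

lemma tt_succ (w : ℕ → ℕ) (m : ℕ) : tt w (m + 1) = tt w m + (w (m + 2) + 1) :=
  Finset.sum_range_succ _ _

lemma tt_mono (w : ℕ → ℕ) : StrictMono (tt w) := by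
  apply strictMono_nat_of_lt_succ
  intro m
  rw [tt_succ]
  omega

lemma le_tt (w : ℕ → ℕ) (m : ℕ) : m ≤ tt w m := (tt_mono w).id_le m

lemma w_le (w : ℕ → ℕ) (m : ℕ) : w (m + 1) ≤ tt w m := by
  have h : w (m + 1) + 1 ≤ tt w m :=
    Finset.single_le_sum (f := fun i => w (i + 1) + 1) (fun _ _ => Nat.zero_le _)
      (Finset.mem_range.2 (Nat.lt_succ_self m))
  omega

lemma ex (w : ℕ → ℕ) (n : ℕ) : ∃ m, n ≤ tt w (m + 1) :=
  ⟨n, (Nat.le_succ n).trans (le_tt w (n + 1))⟩

/-- the index of the block of `n` -/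
def ix (w : ℕ → ℕ) (n : ℕ) : ℕ := Nat.find (ex w n)

lemma ix_le (w : ℕ → ℕ) (n : ℕ) : n ≤ tt w (ix w n + 1) := Nat.find_spec (ex w n)

lemma lt_ix {w : ℕ → ℕ} {n : ℕ} (h : tt w 0 < n) : tt w (ix w n) < n := by
  rcases Nat.eq_zero_or_pos (ix w n) with h0 | h0
  · rw [h0]; exact h
  · have h1 : ¬ n ≤ tt w (ix w n - 1 + 1) :=
      Nat.find_min (ex w n) (show ix w n - 1 < Nat.find (ex w n) from Nat.sub_lt h0 one_pos)
    rw [Nat.sub_add_cancel h0] at h1
    omega

/-- the code of the initial part -/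
def X (w : ℕ → ℕ) (f : ℕ → ℕ) (m : ℕ) : ℕ := Encodable.encode ((List.range (tt w m + 1)).map f)

/-- the `n`-th entry of the list with the code `c` -/
def ent (n c : ℕ) : ℕ := ((Encodable.decode (α := List ℕ) c).getD []).getD n 0

lemma ent_X (w : ℕ → ℕ) (f : ℕ → ℕ) (m n : ℕ) (h : n ≤ tt w m) : ent n (X w f m) = f n := by
  unfold ent X
  rw [Encodable.encodek, Option.getD_some, List.getD_eq_getElem _ _ (by simp; omega)]
  simp

/-- the new slalom -/
def D (w : ℕ → ℕ) (S : ℕ → Finset ℕ) (n : ℕ) : Finset ℕ :=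
  if tt w 0 < n then (S (ix w n + 1)).image (ent n) else ∅

end WIDM

open WIDM in
theorem specWID : SpecWID := by
  intro w
  refine ⟨X w, D w, ?_, ?_⟩
  · intro S hS n
    unfold D
    split_ifs with h
    · have h1 := lt_ix h
      have h2 := w_le w (ix w n)
      have h3 := hS (ix w n + 1)
      have h4 : ((S (ix w n + 1)).image (ent n)).card ≤ (S (ix w n + 1)).card :=
        Finset.card_image_le
      show ((S (ix w n + 1)).image (ent n)).card ≤ n
      omega
    · simp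
  · intro f S _ hc
    obtain ⟨M, hM⟩ := eventually_atTop.1 hc
    refine eventually_atTop.2 ⟨tt w M + 1, fun n hn => ?_⟩
    have h0 : tt w 0 < n := by
      have : tt w 0 ≤ tt w M := (tt_mono w).monotone (Nat.zero_le M)
      omega
    have h1 : M < ix w n + 1 := by
      have h2 := ix_le w n
      exact (tt_mono w).lt_iff_lt.1 (by omega)
    unfold D
    rw [if_pos h0, Finset.mem_image]
    exact ⟨X w f (ix w n + 1), hM _ h1.le, ent_X w f _ n (ix_le w n)⟩

end Pool.Agent.Lib.MP2148a5
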